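import Pool.Agent.H881Z.Engel.Filt

set_option autoImplicit false

namespace Pool.Agent.H881Z.Engel

attribute [local instance 100] LieRing.ofAssociativeRing

section Core

variable {K E : Type} [Field K] [Ring E] [Algebra K E]

/-- span of all products of at least `n` elements of `U` -/
def TT (U : Submodule K E) (n : ℕ) : Submodule K E := ⨆ m : ℕ, U ^ (n + m)

theorem pow_le_TT (U : Submodule K E) (n m : ℕ) : U ^ (n + m) ≤ TT U n :=
  le_iSup (fun m : ℕ => U ^ (n + m)) m

theorem TT_mul (U : Submodule K E) (a b : ℕ) : TT U a * TT U b ≤ TT U (a + b) := by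
  unfold TT
  rw [Submodule.iSup_mul]
  refine iSup_le fun i => ?_
  rw [Submodule.mul_iSup]
  refine iSup_le fun j => ?_
  rw [← pow_add, show a + i + (b + j) = a + b + (i + j) by omega]
  exact pow_le_TT U _ _

theorem TT_anti (U : Submodule K E) {a b : ℕ} (h : a ≤ b) : TT U b ≤ TT U a := by
  obtain ⟨c, rfl⟩ := Nat.exists_eq_add_of_le h
  refine iSup_le fun i => ?_
  rw [add_assoc]
  exact pow_le_TT U _ _

theorem TT_mono {U U' : Submodule K E} (h : U ≤ U') (a : ℕ) : TT U a ≤ TT U' a :=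
  iSup_le fun _ => (pow_le_pow_left' h _).trans (pow_le_TT U' _ _)

theorem TT_eq_bot {U : Submodule K E} {n : ℕ} (h : U ^ n = ⊥) : TT U n = ⊥ :=
  le_bot_iff.1 (iSup_le fun i => by rw [pow_eq_bot_of_le h (Nat.le_add_right _ _)])

theorem le_TT_one (U : Submodule K E) : U ≤ TT U 1 := by
  simpa using pow_le_TT U 1 0

theorem ad_pow {U U' : Submodule K E} (hle : U ≤ U') (g : E)
    (h : ∀ y ∈ U, g * y - y * g ∈ U') (n : ℕ) : ∀ z ∈ U ^ n, g * z - z * g ∈ U' ^ n := by
  intro z hz
  induction hz using Submodule.pow_induction_on_left' with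
  | algebraMap r => rw [Algebra.commutes, sub_self]; exact zero_mem _
  | add x y i hx hy ihx ihy =>
    have : g * (x + y) - (x + y) * g = (g * x - x * g) + (g * y - y * g) := by noncomm_ring
    rw [this]
    exact add_mem ihx ihy
  | mem_mul m hm i x hx ih =>
    have : g * (m * x) - m * x * g = (g * m - m * g) * x + m * (g * x - x * g) := by noncomm_ring
    rw [this, pow_succ']
    exact add_mem (Submodule.mul_mem_mul (h m hm) (pow_le_pow_left' hle _ hx))
      (Submodule.mul_mem_mul (hle hm) ih)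

theorem ad_TT {U U' : Submodule K E} (hle : U ≤ U') (g : E)
    (h : ∀ y ∈ U, g * y - y * g ∈ U') (n : ℕ) : ∀ z ∈ TT U n, g * z - z * g ∈ TT U' n := by
  intro z hz
  unfold TT at hz
  induction hz using Submodule.iSup_induction' with
  | mem i x hx => exact pow_le_TT U' n i (ad_pow hle g h _ x hx)
  | zero => simp
  | add x y _ _ ihx ihy =>
    have : g * (x + y) - (x + y) * g = (g * x - x * g) + (g * y - y * g) := by noncomm_ring
    rw [this]
    exact add_mem ihx ihy

variable (K E) in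
/-- The data from which the Lie algebra is built. -/
structure Data where
  G : Submodule K E
  Y : ℕ → Submodule K E
  hlie : ∀ g ∈ G, ∀ h ∈ G, g * h - h * g ∈ G
  hnil : ∀ g ∈ G, IsNilpotent g
  mono : Monotone Y
  had : ∀ g ∈ G, ∃ d, ∀ k, ∀ y ∈ Y k, g * y - y * g ∈ Y (k + d)
  hN : ∀ k, ∃ N, (Y k) ^ N = ⊥

namespace Data

variable (D : Data K E)

/-- the associative locally nilpotent subalgebra -/
def S : Submodule K E := ⨆ k, TT (D.Y k) 1

theorem mem_S {z : E} : z ∈ D.S ↔ ∃ k, z ∈ TT (D.Y k) 1 := by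
  unfold S
  refine Submodule.mem_iSup_of_directed _ ?_
  exact Monotone.directed_le (fun a b h => TT_mono (D.mono h) 1)

theorem S_mul {y z : E} (hy : y ∈ D.S) (hz : z ∈ D.S) : y * z ∈ D.S := by
  obtain ⟨a, ha⟩ := D.mem_S.1 hy
  obtain ⟨b, hb⟩ := D.mem_S.1 hz
  refine D.mem_S.2 ⟨max a b, ?_⟩
  refine TT_anti _ (show 1 ≤ 1 + 1 by omega) (TT_mul _ 1 1 (Submodule.mul_mem_mul ?_ ?_))
  · exact TT_mono (D.mono (le_max_left a b)) 1 ha
  · exact TT_mono (D.mono (le_max_right a b)) 1 hb

theorem ad_S {g z : E} (hg : g ∈ D.G) (hz : z ∈ D.S) : g * z - z * g ∈ D.S := by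
  obtain ⟨a, ha⟩ := D.mem_S.1 hz
  obtain ⟨d, hd⟩ := D.had g hg
  exact D.mem_S.2 ⟨a + d, ad_TT (D.mono (Nat.le_add_right a d)) g (hd a) 1 z ha⟩

theorem lie_S {x z : E} (hx : x ∈ D.G ⊔ D.S) (hz : z ∈ D.S) : x * z - z * x ∈ D.S := by
  obtain ⟨g, hg, s, hs, rfl⟩ := Submodule.mem_sup.1 hx
  have : (g + s) * z - z * (g + s) = (g * z - z * g) + (s * z - z * s) := by noncomm_ring
  rw [this]
  exact add_mem (D.ad_S hg hz) (sub_mem (D.S_mul hs hz) (D.S_mul hz hs))

/-- the Lie algebra -/
def A : LieSubalgebra K E where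
  toSubmodule := D.G ⊔ D.S
  lie_mem' := by
    intro x y hx hy
    have hx' : x ∈ D.G ⊔ D.S := hx
    obtain ⟨g, hg, s, hs, rfl⟩ := Submodule.mem_sup.1 (show y ∈ D.G ⊔ D.S from hy)
    obtain ⟨g', hg', s', hs', rfl⟩ := Submodule.mem_sup.1 hx'
    show ⁅g' + s', g + s⁆ ∈ D.G ⊔ D.S
    have : ⁅g' + s', g + s⁆ = (g' * g - g * g') +
        (((g' + s') * s - s * (g' + s')) - (g * s' - s' * g)) := by
      rw [Ring.lie_def]; noncomm_ring
    rw [this]
    exact Submodule.add_mem_sup (D.hlie _ hg' _ hg) (sub_mem (D.lie_S hx' hs) (D.ad_S hg hs'))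

theorem mem_A {z : E} : z ∈ D.A ↔ z ∈ D.G ⊔ D.S := Iff.rfl

theorem nil_A {z : E} (hz : z ∈ D.A) : IsNilpotent z := by
  obtain ⟨g, hg, s, hs, rfl⟩ := Submodule.mem_sup.1 (D.mem_A.1 hz)
  obtain ⟨k, hk⟩ := D.mem_S.1 hs
  obtain ⟨d, hd⟩ := D.had g hg
  obtain ⟨n, hn⟩ := D.hnil g hg
  obtain ⟨m, hm⟩ := LieAlgebra.ad_nilpotent_of_nilpotent (R := K) (D.hnil g hg)
  let δ : Module.End K E := LieAlgebra.ad K E g
  have hδ : ∀ y, δ y = g * y - y * g := fun y => rfl
  let Yg : Submodule K E := ⨅ i : ℕ, (D.Y (k + m * d)).comap (δ ^ i)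
  have mem_Yg : ∀ y, y ∈ Yg ↔ ∀ i : ℕ, (δ ^ i) y ∈ D.Y (k + m * d) := by
    intro y
    simp [Yg, Submodule.mem_iInf]
  have h1 : ∀ y ∈ D.Y k, ∀ i : ℕ, (δ ^ i) y ∈ D.Y (k + i * d) := by
    intro y hy i
    induction i with
    | zero => simpa using hy
    | succ i ih =>
      rw [pow_succ', Module.End.mul_apply, hδ, Nat.succ_mul, ← add_assoc]
      exact hd _ _ ih
  have h2 : D.Y k ≤ Yg := by
    intro y hy
    rw [mem_Yg]
    intro i
    by_cases hi : i ≤ m
    · exact D.mono (Nat.add_le_add_left (Nat.mul_le_mul_right d hi) k) (h1 y hy i)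
    · have : δ ^ i = 0 := pow_eq_zero_of_le (by omega) hm
      rw [this]
      simp
  have h3 : ∀ y ∈ Yg, g * y - y * g ∈ Yg := by
    intro y hy
    rw [mem_Yg] at hy ⊢
    intro i
    have := hy (i + 1)
    rwa [pow_succ, Module.End.mul_apply, hδ] at this
  have h4 : Yg ≤ D.Y (k + m * d) := fun y hy => by simpa using (mem_Yg y).1 hy 0
  obtain ⟨N, hN⟩ := D.hN (k + m * d)
  have hN' : Yg ^ N = ⊥ := le_bot_iff.1 (hN ▸ pow_le_pow_left' h4 N)
  have key := filt (TT Yg 1) (Submodule.span K {g}) (fun j => Yg ^ j * ⊤) ?_ ?_ ?_ ?_ n N ?_ ?_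
  · refine ⟨n * N, ?_⟩
    have h5 : g + s ∈ TT Yg 1 ⊔ Submodule.span K {g} := by
      rw [add_comm]
      exact Submodule.add_mem_sup (TT_mono h2 1 hk) (Submodule.mem_span_singleton_self g)
    have := Submodule.pow_mem_pow _ h5 (n * N)
    rwa [key, Submodule.mem_bot] at this
  · intro j
    rw [pow_succ, mul_assoc]
    exact mul_le_mul' le_rfl le_top
  · intro j
    rw [Submodule.mul_le]
    intro w hw q hq
    obtain ⟨c, rfl⟩ := Submodule.mem_span_singleton.1 hw
    rw [smul_mul_assoc]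
    refine Submodule.smul_mem _ c ?_
    induction hq using Submodule.mul_induction_on' with
    | mem_mul_mem y hy t ht =>
      have : g * (y * t) = (g * y - y * g) * t + y * (g * t) := by noncomm_ring
      rw [this]
      exact add_mem (Submodule.mul_mem_mul (ad_pow le_rfl g h3 j y hy) trivial)
        (Submodule.mul_mem_mul hy trivial)
    | add x hx y hy ihx ihy =>
      rw [mul_add]
      exact add_mem ihx ihy
  · intro j
    unfold TT
    rw [Submodule.iSup_mul]
    refine iSup_le fun i => ?_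
    rw [← mul_assoc, ← pow_add, show 1 + i + j = (j + 1) + i by omega, pow_add, mul_assoc]
    exact mul_le_mul' le_rfl le_top
  · simp
  · rw [Submodule.span_pow, Set.singleton_pow, hn, Submodule.span_zero_singleton]
  · simp only [hN', Submodule.bot_mul]

/-- the ideal -/
def I : LieIdeal K D.A where
  carrier := {z | (z : E) ∈ D.S}
  add_mem' := fun {x y} ha hb => by
    show (x : E) + y ∈ D.S
    exact add_mem ha hb
  zero_mem' := by
    show (0 : E) ∈ D.S
    exact zero_mem _
  smul_mem' := fun c x hx => by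
    show c • (x : E) ∈ D.S
    exact Submodule.smul_mem _ c hx
  lie_mem := fun {x m} hm => D.lie_S x.2 hm

theorem mem_I {z : D.A} : z ∈ D.I ↔ (z : E) ∈ D.S := Iff.rfl

theorem exists_level (s : Set D.A) (hs : s.Finite) (h : s ⊆ (D.I : Set D.A)) :
    ∃ k, ∀ z ∈ s, (z : E) ∈ TT (D.Y k) 1 := by
  induction s, hs using Set.Finite.induction_on with
  | empty => exact ⟨0, by simp⟩
  | @insert a s _ _ ih =>
    obtain ⟨k, hk⟩ := ih (fun z hz => h (Set.mem_insert_of_mem _ hz))
    obtain ⟨k', hk'⟩ := D.mem_S.1 (D.mem_I.1 (h (Set.mem_insert a s)))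
    refine ⟨max k k', ?_⟩
    rintro z (rfl | hz)
    · exact TT_mono (D.mono (le_max_right k k')) 1 hk'
    · exact TT_mono (D.mono (le_max_left k k')) 1 (hk z hz)

theorem I_locNil : IsLocNilpLieIdeal K D.A D.I := by
  intro s hs h
  obtain ⟨k, hk⟩ := D.exists_level s hs h
  obtain ⟨N, hN⟩ := D.hN k
  let H1 : LieSubalgebra K D.A :=
    { carrier := {z | (z : E) ∈ TT (D.Y k) 1}
      add_mem' := fun {x y} ha hb => by
        show (x : E) + y ∈ TT (D.Y k) 1
        exact add_mem ha hb
      zero_mem' := by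
        show (0 : E) ∈ TT (D.Y k) 1
        exact zero_mem _
      smul_mem' := fun c x hx => by
        show c • (x : E) ∈ TT (D.Y k) 1
        exact Submodule.smul_mem _ c hx
      lie_mem' := fun {x y} hx hy => by
        show (x : E) * y - y * x ∈ TT (D.Y k) 1
        exact TT_anti _ (show 1 ≤ 1 + 1 by omega)
          (sub_mem (TT_mul _ 1 1 (Submodule.mul_mem_mul hx hy))
            (TT_mul _ 1 1 (Submodule.mul_mem_mul hy hx))) }
  have hH : LieSubalgebra.lieSpan K D.A s ≤ H1 := LieSubalgebra.lieSpan_le.2 hk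
  set H := LieSubalgebra.lieSpan K D.A s with hHdef
  let W : ℕ → LieSubmodule K H H := fun n =>
    { carrier := {z | ((z : D.A) : E) ∈ TT (D.Y k) (n + 1)}
      add_mem' := fun {x y} ha hb => by
        show ((x : D.A) : E) + (y : D.A) ∈ TT (D.Y k) (n + 1)
        exact add_mem ha hb
      zero_mem' := by
        show (0 : E) ∈ TT (D.Y k) (n + 1)
        exact zero_mem _
      smul_mem' := fun c x hx => by
        show c • ((x : D.A) : E) ∈ TT (D.Y k) (n + 1)
        exact Submodule.smul_mem _ c hx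
      lie_mem := fun {x m} hm => by
        show ((x : D.A) : E) * (m : D.A) - (m : D.A) * (x : D.A) ∈ TT (D.Y k) (n + 1)
        have hx : ((x : D.A) : E) ∈ TT (D.Y k) 1 := hH x.2
        refine sub_mem (TT_anti _ (by omega) (TT_mul _ 1 (n + 1) (Submodule.mul_mem_mul hx hm)))
          (TT_anti _ (by omega) (TT_mul _ (n + 1) 1 (Submodule.mul_mem_mul hm hx))) }
  have hW : ∀ n, LieModule.lowerCentralSeries K H H n ≤ W n := by
    intro n
    induction n with
    | zero => exact fun z _ => hH z.2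
    | succ n ih =>
      rw [LieModule.lowerCentralSeries_succ, LieSubmodule.lie_le_iff]
      intro x _ m hm
      have hm' : ((m : D.A) : E) ∈ TT (D.Y k) (n + 1) := ih hm
      have hx : ((x : D.A) : E) ∈ TT (D.Y k) 1 := hH x.2
      show ((x : D.A) : E) * (m : D.A) - (m : D.A) * (x : D.A) ∈ TT (D.Y k) (n + 1 + 1)
      refine sub_mem (TT_anti _ (by omega) (TT_mul _ 1 (n + 1) (Submodule.mul_mem_mul hx hm')))
          (TT_anti _ (by omega) (TT_mul _ (n + 1) 1 (Submodule.mul_mem_mul hm' hx)))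
  rw [LieRing.IsNilpotent, LieModule.isNilpotent_iff K]
  refine ⟨N, ?_⟩
  rw [eq_bot_iff]
  intro z hz
  have h1 : ((z : D.A) : E) ∈ TT (D.Y k) (N + 1) := hW N hz
  rw [TT_eq_bot (pow_eq_bot_of_le hN (Nat.le_succ N)), Submodule.mem_bot] at h1
  rw [LieSubmodule.mem_bot]
  exact Subtype.ext (Subtype.ext h1)

theorem core (a : E) (ha : a ∈ D.Y 0) (X : Fin 2 → E) (hX : ∀ i, X i ∈ D.G)
    (C : Submodule K E) (hC0 : C ≤ D.Y 0) (hC1 : ∀ c ∈ C, ∀ z ∈ D.A, c * z = 0 ∧ z * c ∈ C)
    (ν : E) (hν : ν ∈ C)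
    (hne : ∀ n, ∃ l : List E, n ≤ l.length ∧ (∀ z ∈ l, z = a ∨ ∃ i, z = a * X i) ∧
      l.prod * ν ≠ 0) :
    ∃ (A : Type) (_ : LieRing A) (_ : LieAlgebra K A),
      (∀ x : A, IsNilpotent (LieAlgebra.ad K A x)) ∧
      ∃ a : A, a ∈ lieRadical K A ∧
        rightMul K A a ∉ levitzki K (Module.End K A) (multAlg K A) := by
  have hY : ∀ y ∈ D.Y 0, y ∈ D.S := fun y hy => D.mem_S.2 ⟨0, le_TT_one _ hy⟩
  have hYA : ∀ y ∈ D.Y 0, y ∈ D.A := fun y hy => Submodule.mem_sup_right (hY y hy)
  let a' : D.A := ⟨a, hYA a ha⟩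
  let X' : Fin 2 → D.A := fun i => ⟨X i, Submodule.mem_sup_left (hX i)⟩
  refine ⟨D.A, inferInstance, inferInstance,
    fun x => LieAlgebra.isNilpotent_ad_of_isNilpotent (D.nil_A x.2), a', ?_, ?_⟩
  · have : D.I ≤ lieRadical K D.A := le_sSup D.I_locNil
    exact this (D.mem_I.2 (hY a ha))
  · intro hmem
    obtain ⟨J, -, hJ2, hJ3, hJ4⟩ := levitzki_mem _ _ hmem
    have hJ4' : rightMul K D.A a' ∈ J := hJ4
    let s : Set (Module.End K D.A) :=
      insert (-rightMul K D.A a') (Set.range fun i => rightMul K D.A a' * rightMul K D.A (X' i))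
    have hs : s.Finite := (Set.finite_range _).insert _
    have hsJ : Submodule.span K s ≤ J := by
      rw [Submodule.span_le]
      rintro _ (rfl | ⟨i, rfl⟩)
      · exact neg_mem hJ4'
      · exact hJ2 _ hJ4' _ (NonUnitalAlgebra.subset_adjoin K ⟨X' i, rfl⟩)
    obtain ⟨n, hn⟩ := hJ3 _ (Submodule.fg_span hs) hsJ
    obtain ⟨l, hl1, hl2, hl3⟩ := hne n
    have hR : ∀ (z : D.A) (c : D.A), (c : E) ∈ C → ((rightMul K D.A z c : D.A) : E) = -(z * c) := by
      intro z c hc
      show (c : E) * z - z * c = _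
      rw [(hC1 c hc z z.2).1, zero_sub]
    have key : ∀ l : List E, (∀ z ∈ l, z = a ∨ ∃ i, z = a * X i) →
        ∃ l' : List (Module.End K D.A), l'.length = l.length ∧ (∀ y ∈ l', y ∈ s) ∧
          ∀ c : D.A, (c : E) ∈ C → ((l'.prod c : D.A) : E) = l.prod * c ∧
            ((l'.prod c : D.A) : E) ∈ C := by
      intro l hl
      induction l with
      | nil => exact ⟨[], rfl, by simp, fun c hc => by simpa using hc⟩
      | cons z l ih =>
        obtain ⟨l', h1, h2, h3⟩ := ih (fun w hw => hl w (by simp [hw]))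
        rcases hl z (by simp) with rfl | ⟨i, rfl⟩
        · refine ⟨-rightMul K D.A a' :: l', by simp [h1], ?_, ?_⟩
          · intro y hy
            rcases List.mem_cons.1 hy with rfl | hy
            · exact Set.mem_insert _ _
            · exact h2 y hy
          · intro c hc
            obtain ⟨h4, h5⟩ := h3 c hc
            have h6 : (((-rightMul K D.A a' :: l').prod c : D.A) : E) =
                z * ((l'.prod c : D.A) : E) := by
              rw [List.prod_cons, Module.End.mul_apply, LinearMap.neg_apply]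
              have := hR a' _ h5
              simp only [NegMemClass.coe_neg, this, neg_neg]
              rfl
            refine ⟨by rw [h6, h4, List.prod_cons, mul_assoc], ?_⟩
            rw [h6]
            exact (hC1 _ h5 _ a'.2).2
        · refine ⟨(rightMul K D.A a' * rightMul K D.A (X' i)) :: l', by simp [h1], ?_, ?_⟩
          · intro y hy
            rcases List.mem_cons.1 hy with rfl | hy
            · exact Set.mem_insert_of_mem _ ⟨i, rfl⟩
            · exact h2 y hy
          · intro c hc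
            obtain ⟨h4, h5⟩ := h3 c hc
            have h7 := hR (X' i) _ h5
            have h8 : ((rightMul K D.A (X' i) (l'.prod c) : D.A) : E) ∈ C := by
              rw [h7]
              exact neg_mem (hC1 _ h5 _ (X' i).2).2
            have h6 : ((((rightMul K D.A a' * rightMul K D.A (X' i)) :: l').prod c : D.A) : E) =
                a * X i * ((l'.prod c : D.A) : E) := by
              rw [List.prod_cons, Module.End.mul_apply, Module.End.mul_apply, hR a' _ h8, h7]
              simp only [mul_neg, neg_neg, mul_assoc]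
              rfl
            refine ⟨by rw [h6, h4, List.prod_cons]; simp only [mul_assoc], ?_⟩
            rw [h6, mul_assoc]
            exact (hC1 _ (hC1 _ h5 _ (X' i).2).2 _ a'.2).2
    obtain ⟨l', h1, h2, h3⟩ := key l hl2
    have h4 := prod_mem_pow (Submodule.span K s) l' (fun y hy => Submodule.subset_span (h2 y hy))
    rw [pow_eq_bot_of_le hn (by omega), Submodule.mem_bot] at h4
    have h5 := (h3 ⟨ν, hYA ν (hC0 hν)⟩ hν).1
    rw [h4] at h5
    exact hl3 (by simpa using h5.symm)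

end Data

end Core

end Pool.Agent.H881Z.Engel
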