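import Mathlib

set_option autoImplicit false

namespace Pool.Agent.H881Z.Engel

section Lie

variable (F : Type) [Field F] (A : Type) [LieRing A] [LieAlgebra F A]

/-- A Lie ideal is locally nilpotent if every finite subset of it generates a nilpotent
Lie subalgebra. -/
def IsLocNilpLieIdeal (I : LieIdeal F A) : Prop :=
  ∀ s : Set A, s.Finite → s ⊆ (I : Set A) →
    LieRing.IsNilpotent (LieSubalgebra.lieSpan F A s)

/-- The locally nilpotent radical of a Lie algebra: the sum of all locally nilpotent ideals. -/
def lieRadical : LieIdeal F A := sSup {I : LieIdeal F A | IsLocNilpLieIdeal F A I}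

/-- Right multiplication by `a`, the map sending `x` to the bracket of `x` and `a`. -/
def rightMul (a : A) : Module.End F A where
  toFun x := ⁅x, a⁆
  map_add' x y := add_lie x y a
  map_smul' c x := smul_lie c x a

/-- The multiplication algebra: the associative subalgebra without adjoined identity of the
endomorphism algebra generated by all right multiplications. -/
def multAlg : NonUnitalSubalgebra F (Module.End F A) :=
  NonUnitalAlgebra.adjoin F (Set.range (rightMul F A))

end Lie

section Assoc

variable (F : Type) [Field F] (E : Type) [Ring E] [Algebra F E]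

/-- A non-unital subalgebra is nilpotent if for some `n` every product of `n + 1` of its elements
is zero. -/
def IsNilpSubalg (B : NonUnitalSubalgebra F E) : Prop :=
  ∃ n : ℕ, ∀ l : List E, l.length = n + 1 → (∀ y ∈ l, y ∈ B) → l.prod = 0

/-- `J` is a locally nilpotent ideal of the non-unital algebra `X` (a subalgebra of `E`): a subspace
of `X` that is a two-sided ideal of `X` and every finite subset of which generates a nilpotent
subalgebra. -/
def IsLocNilpIdeal (X : NonUnitalSubalgebra F E) (J : Submodule F E) : Prop :=
  (∀ x ∈ J, x ∈ X) ∧ (∀ x ∈ J, ∀ y ∈ X, x * y ∈ J ∧ y * x ∈ J) ∧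
    ∀ s : Set E, s.Finite → s ⊆ (J : Set E) → IsNilpSubalg F E (NonUnitalAlgebra.adjoin F s)

/-- The locally nilpotent (Levitzki) radical of the non-unital algebra `X`: the sum of all locally
nilpotent ideals of `X`. -/
def levitzki (X : NonUnitalSubalgebra F E) : Submodule F E :=
  sSup {J : Submodule F E | IsLocNilpIdeal F E X J}

end Assoc

/-- The locally nilpotent radical of the multiplication algebra of the Lie algebra `A`. -/
def multRadical (F : Type) [Field F] (A : Type) [LieRing A] [LieAlgebra F A] :
    Submodule F (Module.End F A) :=
  levitzki F (Module.End F A) (multAlg F A)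

end Pool.Agent.H881Z.Engel
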