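import Pool.Agent.H881Z.Engel.Defs

set_option autoImplicit false

namespace Pool.Agent.H881Z.Engel

section Filt

variable {K E : Type} [Field K] [Ring E] [Algebra K E]

theorem filt_step (U W : Submodule K E) (Q : ℕ → Submodule K E)
    (hanti : ∀ j, Q (j + 1) ≤ Q j) (hW : ∀ j, W * Q j ≤ Q j) (hU : ∀ j, U * Q j ≤ Q (j + 1))
    (j i : ℕ) : (U ⊔ W) ^ i * Q j ≤ W ^ i * Q j ⊔ Q (j + 1) := by
  have hWp : ∀ i, W ^ i * Q j ≤ Q j := by
    intro i
    induction i with
    | zero => simp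
    | succ i ih =>
      rw [pow_succ', mul_assoc]
      exact (mul_le_mul' le_rfl ih).trans (hW j)
  induction i with
  | zero => simp
  | succ i ih =>
    rw [pow_succ', mul_assoc]
    refine (mul_le_mul' le_rfl ih).trans ?_
    rw [Submodule.sup_mul, Submodule.mul_sup, Submodule.mul_sup]
    refine sup_le (sup_le ?_ ?_) (sup_le ?_ ?_)
    · exact ((mul_le_mul' le_rfl (hWp i)).trans (hU j)).trans le_sup_right
    · exact ((hU (j + 1)).trans (hanti (j + 1))).trans le_sup_right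
    · rw [← mul_assoc, ← pow_succ']
      exact le_sup_left
    · exact (hW (j + 1)).trans le_sup_right

theorem filt (U W : Submodule K E) (Q : ℕ → Submodule K E)
    (hanti : ∀ j, Q (j + 1) ≤ Q j) (hW : ∀ j, W * Q j ≤ Q j) (hU : ∀ j, U * Q j ≤ Q (j + 1))
    (h1 : (1 : E) ∈ Q 0) (n m : ℕ) (hn : W ^ n = ⊥) (hm : Q m = ⊥) :
    (U ⊔ W) ^ (n * m) = ⊥ := by
  have h : ∀ j, (U ⊔ W) ^ (n * j) ≤ Q j := by
    intro j
    induction j with
    | zero => simpa using h1
    | succ j ih =>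
      rw [Nat.mul_succ, add_comm, pow_add]
      refine (mul_le_mul' le_rfl ih).trans ?_
      refine (filt_step U W Q hanti hW hU j n).trans ?_
      rw [hn, Submodule.bot_mul, bot_sup_eq]
  exact le_bot_iff.1 (hm ▸ h m)

theorem pow_eq_bot_of_le {U : Submodule K E} {n m : ℕ} (h : U ^ n = ⊥) (hnm : n ≤ m) :
    U ^ m = ⊥ := by
  obtain ⟨c, rfl⟩ := Nat.exists_eq_add_of_le hnm
  rw [pow_add, h, Submodule.bot_mul]

/-- locally nilpotent subspace -/
def LN (J : Submodule K E) : Prop := ∀ U : Submodule K E, U.FG → U ≤ J → ∃ n, U ^ n = ⊥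

theorem fg_split {J1 J2 U : Submodule K E} (hU : U.FG) (h : U ≤ J1 ⊔ J2) :
    ∃ U1 U2 : Submodule K E, U1.FG ∧ U2.FG ∧ U1 ≤ J1 ∧ U2 ≤ J2 ∧ U ≤ U1 ⊔ U2 := by
  obtain ⟨s, rfl⟩ := hU
  have hs : ∀ x : s, ∃ y z : E, y ∈ J1 ∧ z ∈ J2 ∧ y + z = x := by
    intro x
    obtain ⟨y, hy, z, hz, hyz⟩ := Submodule.mem_sup.1 (h (Submodule.subset_span x.2))
    exact ⟨y, z, hy, hz, hyz⟩
  choose y z hy hz hyz using hs
  refine ⟨Submodule.span K (Set.range y), Submodule.span K (Set.range z),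
    Submodule.fg_span (Set.finite_range y), Submodule.fg_span (Set.finite_range z), ?_, ?_, ?_⟩
  · rw [Submodule.span_le]; rintro _ ⟨x, rfl⟩; exact hy x
  · rw [Submodule.span_le]; rintro _ ⟨x, rfl⟩; exact hz x
  · rw [Submodule.span_le]
    intro x hx
    have := hyz ⟨x, hx⟩
    simp only at this
    rw [← this]
    exact Submodule.add_mem_sup (Submodule.subset_span ⟨_, rfl⟩) (Submodule.subset_span ⟨_, rfl⟩)

theorem LN.sup {J1 J2 : Submodule K E} (h1 : LN J1) (h2 : LN J2) (h12 : J1 * J2 ≤ J1) :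
    LN (J1 ⊔ J2) := by
  intro U hU hle
  obtain ⟨U1, U2, f1, f2, l1, l2, hU12⟩ := fg_split hU hle
  obtain ⟨n2, hn2⟩ := h2 U2 f2 l2
  let Wb : Submodule K E := ⨆ i : Fin n2, U2 ^ (i : ℕ)
  have hWb : Wb.FG := Submodule.fg_iSup _ (fun i => f2.pow _)
  have hpow : ∀ i : ℕ, U2 ^ i ≤ Wb := by
    intro i
    by_cases hi : i < n2
    · exact le_iSup (fun i : Fin n2 => U2 ^ (i : ℕ)) ⟨i, hi⟩
    · rw [pow_eq_bot_of_le hn2 (not_lt.1 hi)]
      exact bot_le
  have hWW : U2 * Wb ≤ Wb := by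
    simp only [Wb]
    rw [Submodule.mul_iSup]
    refine iSup_le fun i => ?_
    rw [← pow_succ']
    exact hpow _
  have hJ : ∀ i : ℕ, J1 * U2 ^ i ≤ J1 := by
    intro i
    induction i with
    | zero => simp
    | succ i ih =>
      rw [pow_succ, ← mul_assoc]
      exact (mul_le_mul' ih l2).trans h12
  let Z : Submodule K E := U1 * Wb
  have hZ : Z ≤ J1 := by
    simp only [Z, Wb]
    rw [Submodule.mul_iSup]
    exact iSup_le fun i => (mul_le_mul' l1 le_rfl).trans (hJ i)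
  obtain ⟨n1, hn1⟩ := h1 Z (f1.mul hWb) hZ
  let Q : ℕ → Submodule K E := fun j => ⨆ i : ℕ, Wb * Z ^ (j + i)
  have hQ : ∀ j i, Wb * Z ^ (j + i) ≤ Q j := fun j i =>
    le_iSup (fun i : ℕ => Wb * Z ^ (j + i)) i
  have h1W : (1 : Submodule K E) ≤ Wb := by simpa using hpow 0
  refine ⟨n2 * n1, le_bot_iff.1 ?_⟩
  rw [← filt U1 U2 Q ?_ ?_ ?_ ?_ n2 n1 hn2 ?_]
  · exact pow_le_pow_left' hU12 _
  · intro j
    refine iSup_le fun i => ?_
    rw [show j + 1 + i = j + (i + 1) by omega]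
    exact hQ j _
  · intro j
    simp only [Q]
    rw [Submodule.mul_iSup]
    refine iSup_le fun i => ?_
    rw [← mul_assoc]
    exact (mul_le_mul' hWW le_rfl).trans (hQ j i)
  · intro j
    simp only [Q]
    rw [Submodule.mul_iSup]
    refine iSup_le fun i => ?_
    rw [← mul_assoc]
    have : U1 * Wb * Z ^ (j + i) = 1 * Z ^ (j + 1 + i) := by
      rw [one_mul, show j + 1 + i = (j + i) + 1 by omega, pow_succ']
    rw [this]
    exact (mul_le_mul' h1W le_rfl).trans (hQ (j + 1) i)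
  · apply hQ 0 0
    simpa using h1W
  · refine le_bot_iff.1 (iSup_le fun i => ?_)
    rw [pow_eq_bot_of_le hn1 (Nat.le_add_right _ _), Submodule.mul_bot]

theorem span_pow_eq_bot (s : Set E) (n : ℕ)
    (h : ∀ l : List E, l.length = n → (∀ y ∈ l, y ∈ s) → l.prod = 0) :
    (Submodule.span K s) ^ n = ⊥ := by
  rw [Submodule.span_pow, Submodule.span_eq_bot]
  intro x hx
  obtain ⟨f, rfl⟩ := Set.mem_pow.1 hx
  apply h
  · simp
  · intro y hy
    obtain ⟨i, rfl⟩ := (List.mem_ofFn' _ _).1 hy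
    exact (f i).2

theorem prod_mem_pow (U : Submodule K E) (l : List E) (h : ∀ y ∈ l, y ∈ U) :
    l.prod ∈ U ^ l.length := by
  induction l with
  | nil => simp [Submodule.one_eq_span, Submodule.mem_span_singleton_self]
  | cons y l ih =>
    rw [List.prod_cons, List.length_cons, pow_succ']
    exact Submodule.mul_mem_mul (h y (by simp)) (ih fun z hz => h z (by simp [hz]))

/-- Every element of the Levitzki radical of a subalgebra lies in a locally nilpotent ideal. -/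
theorem levitzki_mem (B : NonUnitalSubalgebra K E) (x : E) (hx : x ∈ levitzki K E B) :
    ∃ J : Submodule K E, (∀ y ∈ J, y ∈ B) ∧ (∀ y ∈ J, ∀ z ∈ B, y * z ∈ J) ∧ LN J ∧
      x ∈ J := by
  unfold levitzki at hx
  rw [sSup_eq_iSup'] at hx
  induction hx using Submodule.iSup_induction' with
  | mem J x hx =>
    obtain ⟨J, hJ0, hJ1, hJ2⟩ := J
    refine ⟨J, hJ0, fun y hy z hz => (hJ1 y hy z hz).1, ?_, hx⟩
    rintro U ⟨s, rfl⟩ hle
    obtain ⟨n, hn⟩ := hJ2 s s.finite_toSet (fun y hy => hle (Submodule.subset_span hy))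
    exact ⟨n + 1, span_pow_eq_bot _ _ fun l hl hls =>
      hn l hl fun y hy => NonUnitalAlgebra.subset_adjoin K (hls y hy)⟩
  | zero =>
    refine ⟨⊥, ?_, ?_, ?_, by simp⟩
    · intro y hy
      rw [(Submodule.mem_bot K).1 hy]
      exact B.zero_mem
    · intro y hy z _
      rw [(Submodule.mem_bot K).1 hy]
      simp
    · intro U _ hU
      exact ⟨1, by simpa using hU⟩
  | add x y _ _ hx hy =>
    obtain ⟨J1, a1, b1, c1, d1⟩ := hx
    obtain ⟨J2, a2, b2, c2, d2⟩ := hy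
    refine ⟨J1 ⊔ J2, ?_, ?_, c1.sup c2 ?_, Submodule.add_mem_sup d1 d2⟩
    · intro w hw
      obtain ⟨u, hu, v, hv, rfl⟩ := Submodule.mem_sup.1 hw
      exact B.add_mem (a1 u hu) (a2 v hv)
    · intro w hw z hz
      obtain ⟨u, hu, v, hv, rfl⟩ := Submodule.mem_sup.1 hw
      rw [add_mul]
      exact Submodule.add_mem_sup (b1 u hu z hz) (b2 v hv z hz)
    · exact Submodule.mul_le.2 fun u hu v hv => b1 u hu v (a2 v hv)

end Filt

end Pool.Agent.H881Z.Engel
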