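import Pool.Agent.H881Z.Engel.Nil

set_option autoImplicit false

namespace Pool.Agent.H881Z.Engel

/-- One register: an algebra with an opening element, closing elements and an idempotent. -/
structure Gad (K N : Type) [Field K] [Ring N] [Algebra K N] where
  G : Submodule K N
  hlie : ∀ g ∈ G, ∀ h ∈ G, g * h - h * g ∈ G
  hnil : ∀ g ∈ G, IsNilpotent g
  x : Fin 2 → N
  hx : ∀ i, x i ∈ G
  e : N
  O : N
  C : ℕ → N
  Op : ℕ → Submodule K N
  Cl : ℕ → ℕ → Submodule K N
  Dg : ℕ → Submodule K N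
  e_e : e * e = e
  e_g : ∀ g ∈ G, e * g = 0
  g_e : ∀ g ∈ G, g * e = 0
  O_mem : O ∈ Op 0
  C_mem : ∀ j, C j ∈ Cl j 0
  Op_mono : Monotone Op
  Cl_mono : ∀ j, Monotone (Cl j)
  had : ∀ g ∈ G, ∃ d, (∀ k, ∀ y ∈ Op k, g * y - y * g ∈ Op (k + d)) ∧
    ∀ j k, ∀ y ∈ Cl j k, g * y - y * g ∈ Cl j (k + d)
  kill : ∀ k, ∀ c ∈ Cl (2 * k) k, ∀ o ∈ Op k, c * o = 0
  one_Dg : 1 ∈ Dg 0
  x_Dg : ∀ i, x i ∈ Dg 1
  Dg_mul : ∀ a b, Dg a * Dg b ≤ Dg (a + b)
  Dg_le : Dg 0 ≤ Dg 1
  C_Dg : ∀ j, ∀ T ∈ Dg j, C j * T * O = 0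
  word : ∀ j, ∃ l : List (Fin 2), l.length = j + 1 ∧ C j * (l.map x).prod * O = e
  lam : N →ₗ[K] K
  lam_e : lam e = 1

section Build

variable {K R : Type} [Field K] [Ring R] [Algebra K R]

/-- left multiplication on the second coordinate -/
def rho : R →ₗ[K] Module.End K (K × R) where
  toFun g := (LinearMap.inr K K R) ∘ₗ (LinearMap.mulLeft K g) ∘ₗ (LinearMap.snd K K R)
  map_add' g h := by
    refine LinearMap.ext fun v => ?_
    simp [add_mul]
  map_smul' c g := by
    refine LinearMap.ext fun v => ?_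
    simp

theorem rho_apply (g : R) (v : K × R) : rho (K := K) g v = (0, g * v.2) := rfl

theorem rho_mul (g h : R) : rho (K := K) g * rho (K := K) h = rho (K := K) (g * h) := by
  refine LinearMap.ext fun v => ?_
  simp [rho_apply, mul_assoc]

theorem rho_prod (l : List R) (r : R) :
    (l.map (rho (K := K))).prod (0, r) = (0, l.prod * r) := by
  induction l with
  | nil => simp
  | cons g l ih => simp [ih, rho_apply, mul_assoc]

theorem exists_gad (K : Type) [Field K] :
    ∃ (N : Type) (_ : Ring N) (_ : Algebra K N), Nonempty (Gad K N) := by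
  obtain ⟨R, _, _, B, x, Fl, hmul, hnil, hx, hmono, h1, hd, hxd, hw⟩ := exists_nil K
  choose l hl1 hl2 using hw
  have hφ : ∀ j, ∃ φ : R →ₗ[K] K, φ ((l j).map x).prod = 1 ∧ ∀ r ∈ Fl j, φ r = 0 := by
    intro j
    obtain ⟨f, hf1, hf2⟩ := Submodule.exists_le_ker_of_notMem (hl2 j)
    refine ⟨(f ((l j).map x).prod)⁻¹ • f, by simp [hf1], fun r hr => ?_⟩
    have : f r = 0 := hf2 hr
    simp [this]
  choose φ hφ1 hφ2 using hφ
  let Op : ℕ → Submodule K (Module.End K (K × R)) := fun k =>
    { carrier := {T | ∀ v, (T v).2 ∈ Fl k}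
      add_mem' := fun ha hb v => add_mem (ha v) (hb v)
      zero_mem' := fun v => zero_mem _
      smul_mem' := fun c T hT v => Submodule.smul_mem _ c (hT v) }
  let Cl : ℕ → ℕ → Submodule K (Module.End K (K × R)) := fun j k =>
    { carrier := {T | ∀ i, i + k ≤ j → ∀ v : K × R, v.2 ∈ Fl i → T v = 0}
      add_mem' := fun ha hb i hi v hv => by
        rw [LinearMap.add_apply, ha i hi v hv, hb i hi v hv, add_zero]
      zero_mem' := fun i _ v _ => rfl
      smul_mem' := fun c T hT i hi v hv => by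
        rw [LinearMap.smul_apply, hT i hi v hv, smul_zero] }
  let Dg : ℕ → Submodule K (Module.End K (K × R)) := fun a =>
    { carrier := {T | ∀ k, ∀ v : K × R, v.2 ∈ Fl k → (T v).2 ∈ Fl (k + a)}
      add_mem' := fun ha hb k v hv => add_mem (ha k v hv) (hb k v hv)
      zero_mem' := fun k v _ => zero_mem _
      smul_mem' := fun c T hT k v hv => Submodule.smul_mem _ c (hT k v hv) }
  let O : Module.End K (K × R) :=
    (LinearMap.inr K K R) ∘ₗ (LinearMap.toSpanSingleton K R 1) ∘ₗ (LinearMap.fst K K R)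
  have hO : ∀ v, O v = (0, v.1 • (1 : R)) := fun v => rfl
  let C : ℕ → Module.End K (K × R) := fun j =>
    (LinearMap.inl K K R) ∘ₗ (φ j) ∘ₗ (LinearMap.snd K K R)
  have hC : ∀ j v, C j v = (φ j v.2, 0) := fun j v => rfl
  let e : Module.End K (K × R) := (LinearMap.inl K K R) ∘ₗ (LinearMap.fst K K R)
  have he : ∀ v, e v = (v.1, 0) := fun v => rfl
  refine ⟨Module.End K (K × R), inferInstance, inferInstance, ⟨
    { G := B.map rho
      hlie := ?_
      hnil := ?_
      x := fun i => rho (K := K) (x i)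
      hx := fun i => ⟨x i, hx i, rfl⟩
      e := e
      O := O
      C := C
      Op := Op
      Cl := Cl
      Dg := Dg
      e_e := LinearMap.ext fun v => rfl
      e_g := ?_
      g_e := ?_
      O_mem := fun v => Submodule.smul_mem _ _ h1
      C_mem := ?_
      Op_mono := fun a b h T hT v => hmono h (hT v)
      Cl_mono := fun j a b h T hT i hi v hv => hT i (by omega) v hv
      had := ?_
      kill := ?_
      one_Dg := fun k v hv => hv
      x_Dg := fun i k v hv => hxd i k _ hv
      Dg_mul := ?_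
      Dg_le := fun T hT k v hv => hmono (by omega) (hT k v hv)
      C_Dg := ?_
      word := ?_
      lam := (LinearMap.fst K K R) ∘ₗ (LinearMap.applyₗ ((1, 0) : K × R))
      lam_e := rfl }⟩⟩
  · rintro _ ⟨g, hg, rfl⟩ _ ⟨h, hh, rfl⟩
    exact ⟨g * h - h * g, sub_mem (hmul g hg h hh) (hmul h hh g hg),
      by rw [map_sub, rho_mul, rho_mul]⟩
  · rintro _ ⟨g, hg, rfl⟩
    obtain ⟨n, hn⟩ := hnil g hg
    have h : ∀ m, rho (K := K) g ^ (m + 1) = rho (K := K) (g ^ (m + 1)) := by
      intro m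
      induction m with
      | zero => simp
      | succ m ih => rw [pow_succ, ih, rho_mul, ← pow_succ]
    exact ⟨n + 1, by rw [h, pow_succ, hn, zero_mul, map_zero]⟩
  · rintro _ ⟨g, -, rfl⟩
    refine LinearMap.ext fun v => ?_
    rw [Module.End.mul_apply, rho_apply, he]
    rfl
  · rintro _ ⟨g, -, rfl⟩
    refine LinearMap.ext fun v => ?_
    rw [Module.End.mul_apply, rho_apply, he]
    simp
  · intro j i hi v hv
    rw [hC, hφ2 j _ (hmono (by omega) hv)]
    rfl
  · rintro _ ⟨g, hg, rfl⟩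
    obtain ⟨d, hd⟩ := hd g hg
    refine ⟨d, ?_, ?_⟩
    · intro k y hy v
      show g * (y v).2 - (y (rho (K := K) g v)).2 ∈ Fl (k + d)
      exact sub_mem (hd k _ (hy v)) (hmono (Nat.le_add_right k d) (hy _))
    · intro j k y hy i hi v hv
      show rho (K := K) g (y v) - y (rho (K := K) g v) = 0
      rw [hy i (by omega) v hv, hy (i + d) (by omega) _ (hd i _ hv), map_zero, sub_zero]
  · intro k c hc o ho
    refine LinearMap.ext fun v => ?_
    exact hc k (by omega) _ (ho v)
  · intro a b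
    rw [Submodule.mul_le]
    intro S hS T hT k v hv
    have := hS _ _ (hT k v hv)
    rw [show k + b + a = k + (a + b) by omega] at this
    exact this
  · intro j T hT
    refine LinearMap.ext fun v => ?_
    have h2 := hT 0 (O v) (Submodule.smul_mem _ _ h1)
    rw [zero_add] at h2
    show C j (T (O v)) = 0
    rw [hC, hφ2 j _ h2]
    rfl
  · intro j
    refine ⟨l j, hl1 j, LinearMap.ext fun v => ?_⟩
    show C j (((l j).map fun i => rho (K := K) (x i)).prod (O v)) = e v
    have h2 : ((l j).map fun i => rho (K := K) (x i)) = ((l j).map x).map (rho (K := K)) := by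
      simp
    rw [h2, hO, rho_prod, hC, he]
    simp [hφ1]

end Build

end Pool.Agent.H881Z.Engel
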