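import Pool.Agent.H881Z.Engel.Core

set_option autoImplicit false

namespace Pool.Agent.H881Z.Engel

section Mat

variable {K E : Type} [Field K] [Ring E] [Algebra K E]

/-- upper left corner embedding -/
def dg : E →ₗ[K] Matrix (Fin 2) (Fin 2) E where
  toFun e := !![e, 0; 0, 0]
  map_add' x y := by ext i j; fin_cases i <;> fin_cases j <;> simp
  map_smul' c x := by ext i j; fin_cases i <;> fin_cases j <;> simp

theorem dg_mul (x y : E) : dg (K := K) x * dg (K := K) y = dg (K := K) (x * y) := by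
  ext i j; fin_cases i <;> fin_cases j <;> simp [dg, Matrix.mul_apply, Fin.sum_univ_two]

/-- matrices with zero second row and prescribed first row -/
def row (P Q : Submodule K E) : Submodule K (Matrix (Fin 2) (Fin 2) E) where
  carrier := {m | m 0 0 ∈ P ∧ m 0 1 ∈ Q ∧ m 1 0 = 0 ∧ m 1 1 = 0}
  add_mem' := by
    rintro a b ⟨a1, a2, a3, a4⟩ ⟨b1, b2, b3, b4⟩
    exact ⟨add_mem a1 b1, add_mem a2 b2, by simp [a3, b3], by simp [a4, b4]⟩
  zero_mem' := ⟨zero_mem _, zero_mem _, rfl, rfl⟩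
  smul_mem' := by
    rintro c a ⟨a1, a2, a3, a4⟩
    exact ⟨P.smul_mem c a1, Q.smul_mem c a2, by simp [a3], by simp [a4]⟩

theorem mem_row {P Q : Submodule K E} {m : Matrix (Fin 2) (Fin 2) E} :
    m ∈ row P Q ↔ m 0 0 ∈ P ∧ m 0 1 ∈ Q ∧ m 1 0 = 0 ∧ m 1 1 = 0 := Iff.rfl

theorem row_mul_entries {P Q P' Q' : Submodule K E} {m m' : Matrix (Fin 2) (Fin 2) E}
    (h : m ∈ row P Q) (h' : m' ∈ row P' Q') :
    (m * m') 0 0 = m 0 0 * m' 0 0 ∧ (m * m') 0 1 = m 0 0 * m' 0 1 ∧ (m * m') 1 0 = 0 ∧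
      (m * m') 1 1 = 0 := by
  obtain ⟨-, -, a3, a4⟩ := h
  obtain ⟨-, -, b3, b4⟩ := h'
  simp [Matrix.mul_apply, Fin.sum_univ_two, a3, a4, b3, b4]

theorem row_mul (P Q P' Q' : Submodule K E) : row P Q * row P' Q' ≤ row (P * P') (P * Q') := by
  rw [Submodule.mul_le]
  intro m h m' h'
  obtain ⟨e1, e2, e3, e4⟩ := row_mul_entries h h'
  exact ⟨e1 ▸ Submodule.mul_mem_mul h.1 h'.1, e2 ▸ Submodule.mul_mem_mul h.1 h'.2.1, e3, e4⟩

theorem row_mono {P Q P' Q' : Submodule K E} (h1 : P ≤ P') (h2 : Q ≤ Q') : row P Q ≤ row P' Q' :=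
  fun _ h => ⟨h1 h.1, h2 h.2.1, h.2.2⟩

theorem row_bot : row (⊥ : Submodule K E) ⊥ = ⊥ := by
  rw [eq_bot_iff]
  rintro m ⟨h1, h2, h3, h4⟩
  rw [Submodule.mem_bot] at h1 h2 ⊢
  ext i j; fin_cases i <;> fin_cases j <;> simp [h1, h2, h3, h4]

theorem row_pow (P : Submodule K E) (n : ℕ) :
    (row P ⊤) ^ (n + 1) ≤ row (P ^ (n + 1)) (P ^ n * ⊤) := by
  induction n with
  | zero => simp
  | succ n ih =>
    rw [pow_succ']
    refine (mul_le_mul' le_rfl ih).trans ((row_mul _ _ _ _).trans ?_)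
    rw [← pow_succ', ← mul_assoc, ← pow_succ']

theorem dg_mem_row {P : Submodule K E} {e : E} (h : e ∈ P) : dg (K := K) e ∈ row P ⊥ :=
  ⟨h, by simp [dg], by simp [dg], by simp [dg]⟩

/-- passage to matrices -/
def Data.mat (D : Data K E) : Data K (Matrix (Fin 2) (Fin 2) E) where
  G := D.G.map dg
  Y k := row (D.Y k) ⊤
  hlie := by
    rintro _ ⟨g, hg, rfl⟩ _ ⟨h, hh, rfl⟩
    exact ⟨_, D.hlie g hg h hh, by rw [dg_mul, dg_mul, map_sub]⟩
  hnil := by
    rintro _ ⟨g, hg, rfl⟩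
    obtain ⟨n, hn⟩ := D.hnil g hg
    have h : ∀ m, dg (K := K) g ^ (m + 1) = dg (K := K) (g ^ (m + 1)) := by
      intro m
      induction m with
      | zero => simp
      | succ m ih => rw [pow_succ, ih, dg_mul, ← pow_succ]
    exact ⟨n + 1, by rw [h, pow_succ, hn, zero_mul, map_zero]⟩
  mono := fun a b h => row_mono (D.mono h) le_rfl
  had := by
    rintro _ ⟨g, hg, rfl⟩
    obtain ⟨d, hd⟩ := D.had g hg
    refine ⟨d, fun k y hy => ?_⟩
    have hg' : dg (K := K) g ∈ row (⊤ : Submodule K E) ⊥ := dg_mem_row trivial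
    obtain ⟨e1, -, e3, e4⟩ := row_mul_entries hg' hy
    obtain ⟨f1, -, f3, f4⟩ := row_mul_entries hy hg'
    refine ⟨?_, trivial, ?_, ?_⟩
    · rw [Matrix.sub_apply, e1, f1]
      exact hd k _ hy.1
    · rw [Matrix.sub_apply, e3, f3, sub_self]
    · rw [Matrix.sub_apply, e4, f4, sub_self]
  hN := by
    intro k
    obtain ⟨N, hN⟩ := D.hN k
    refine ⟨N + 1, le_bot_iff.1 ((row_pow _ _).trans ?_)⟩
    rw [pow_succ, hN, Submodule.bot_mul, Submodule.bot_mul, row_bot]

theorem Data.A_le_row (D : Data K E) : ∀ z ∈ D.mat.A, z ∈ row (⊤ : Submodule K E) ⊤ := by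
  intro z hz
  have h : D.mat.G ⊔ D.mat.S ≤ row (⊤ : Submodule K E) ⊤ := by
    refine sup_le ?_ ?_
    · rintro _ ⟨g, -, rfl⟩
      exact row_mono le_rfl bot_le (dg_mem_row (P := ⊤) trivial)
    · refine iSup_le fun k => iSup_le fun m => ?_
      rw [add_comm]
      exact (row_pow _ _).trans (row_mono le_top le_top)
  exact h hz

theorem Data.main (D : Data K E) (a : E) (ha : a ∈ D.Y 0) (X : Fin 2 → E) (hX : ∀ i, X i ∈ D.G)
    (hne : ∀ n, ∃ l : List E, n ≤ l.length ∧ (∀ z ∈ l, z = a ∨ ∃ i, z = a * X i) ∧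
      l.prod ≠ 0) :
    ∃ (A : Type) (_ : LieRing A) (_ : LieAlgebra K A),
      (∀ x : A, IsNilpotent (LieAlgebra.ad K A x)) ∧
      ∃ a : A, a ∈ lieRadical K A ∧
        rightMul K A a ∉ levitzki K (Module.End K A) (multAlg K A) := by
  have hν : (!![0, 1; 0, 0] : Matrix (Fin 2) (Fin 2) E) ∈ row (⊥ : Submodule K E) ⊤ :=
    ⟨by simp, trivial, by simp, by simp⟩
  refine D.mat.core (dg (K := K) a) (row_mono le_rfl bot_le (dg_mem_row ha))
    (fun i => dg (K := K) (X i)) (fun i => ⟨X i, hX i, rfl⟩) (row ⊥ ⊤) (row_mono bot_le le_rfl)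
    ?_ !![0, 1; 0, 0] hν ?_
  · intro c hc z hz
    have hz' := D.A_le_row z hz
    constructor
    · have := row_mul _ _ _ _ (Submodule.mul_mem_mul hc hz')
      rwa [Submodule.bot_mul, row_bot, Submodule.mem_bot] at this
    · have := row_mul _ _ _ _ (Submodule.mul_mem_mul hz' hc)
      rw [Submodule.mul_bot] at this
      exact row_mono le_rfl le_top this
  · intro n
    obtain ⟨l, h1, h2, h3⟩ := hne n
    refine ⟨l.map (dg (K := K)), by simpa using h1, ?_, ?_⟩
    · intro z hz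
      obtain ⟨w, hw, rfl⟩ := List.mem_map.1 hz
      rcases h2 w hw with rfl | ⟨i, rfl⟩
      · exact Or.inl rfl
      · exact Or.inr ⟨i, (dg_mul _ _).symm⟩
    · have key : ∀ l : List E, (l.map (dg (K := K))).prod * !![0, 1; 0, 0] =
          !![0, l.prod; 0, 0] := by
        intro l
        induction l with
        | nil => simp
        | cons y l ih =>
          rw [List.map_cons, List.prod_cons, mul_assoc, ih]
          ext i j; fin_cases i <;> fin_cases j <;> simp [dg, Matrix.mul_apply, Fin.sum_univ_two]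
      intro h
      rw [key] at h
      have := congrFun (congrFun h 0) 1
      exact h3 (by simpa using this)

end Mat

end Pool.Agent.H881Z.Engel
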