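import Pool.Agent.H881Z.Engel.Time
import Pool.Agent.H881Z.Engel.Mat

set_option autoImplicit false

namespace Pool.Agent.H881Z.Engel

open Function

section Sh

variable {K T : Type} [Field K] [Ring T] [Algebra K T]

variable (K) in
/-- weighted shift -/
def sh : (ℕ → T) →ₗ[K] Module.End K (ℕ → T) where
  toFun α :=
    { toFun := fun ξ t => α t * ξ (t + 1)
      map_add' := fun ξ η => by funext t; simp [mul_add]
      map_smul' := fun c ξ => by funext t; simp }
  map_add' α β := by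
    refine LinearMap.ext fun ξ => ?_
    funext t
    simp [add_mul]
  map_smul' c α := by
    refine LinearMap.ext fun ξ => ?_
    funext t
    simp

theorem sh_apply (α ξ : ℕ → T) (t : ℕ) : sh K α ξ t = α t * ξ (t + 1) := rfl

variable (K) in
/-- pointwise left multiplication -/
def mu : T →ₗ[K] Module.End K (ℕ → T) where
  toFun τ :=
    { toFun := fun ξ t => τ * ξ t
      map_add' := fun ξ η => by funext t; simp [mul_add]
      map_smul' := fun c ξ => by funext t; simp }
  map_add' α β := by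
    refine LinearMap.ext fun ξ => ?_
    funext t
    simp [add_mul]
  map_smul' c α := by
    refine LinearMap.ext fun ξ => ?_
    funext t
    simp

theorem mu_apply (τ : T) (ξ : ℕ → T) (t : ℕ) : mu K τ ξ t = τ * ξ t := rfl

theorem mu_mul (σ τ : T) : mu K σ * mu K τ = mu K (σ * τ) := by
  refine LinearMap.ext fun ξ => ?_
  funext t
  simp [mu_apply, mul_assoc]

theorem mu_pow (τ : T) (n : ℕ) : mu K τ ^ (n + 1) = mu K (τ ^ (n + 1)) := by
  induction n with
  | zero => simp
  | succ n ih => rw [pow_succ, ih, mu_mul, ← pow_succ]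

theorem ad_sh (τ : T) (α : ℕ → T) :
    mu K τ * sh K α - sh K α * mu K τ = sh K fun t => τ * α t - α t * τ := by
  refine LinearMap.ext fun ξ => ?_
  funext t
  simp [mu_apply, sh_apply, mul_assoc, sub_mul]

theorem sh_mu (τ : T) (α : ℕ → T) : sh K α * mu K τ = sh K fun t => α t * τ := by
  refine LinearMap.ext fun ξ => ?_
  funext t
  simp [mu_apply, sh_apply, mul_assoc]

theorem rp_sh (α : ℕ → ℕ → T) (n : ℕ) (ξ : ℕ → T) (t : ℕ) :
    rp (fun i => sh K (α i)) n ξ t = rp (fun i => α i (t + i)) n * ξ (t + n) := by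
  induction n generalizing ξ with
  | zero => simp [rp_zero]
  | succ n ih => rw [rp_succ, rp_succ, Module.End.mul_apply, ih, sh_apply, mul_assoc, add_assoc]

theorem list_rp {M : Type} [Monoid M] {X : Type} (P : Set X) (x0 : X) (h0 : x0 ∈ P) (φ : X → M)
    (l : List M) (h : ∀ y ∈ l, ∃ x ∈ P, φ x = y) :
    ∃ α : ℕ → X, (∀ i, α i ∈ P) ∧ l.prod = rp (fun i => φ (α i)) l.length := by
  induction l with
  | nil => exact ⟨fun _ => x0, fun _ => h0, rfl⟩
  | cons y l ih =>
    obtain ⟨α, h1, h2⟩ := ih (fun z hz => h z (by simp [hz]))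
    obtain ⟨x, hx, rfl⟩ := h y (by simp)
    refine ⟨fun i => if i = 0 then x else α (i - 1), ?_, ?_⟩
    · intro i
      by_cases hi : i = 0 <;> simp [hi, hx, h1]
    · rw [List.prod_cons, List.length_cons, add_comm, rp_add, rp_one, h2]
      simp

theorem rp_apply {ι : Type} {M : ι → Type} [∀ i, Monoid (M i)] (f : ℕ → ∀ i, M i) (n : ℕ)
    (i : ι) : rp f n i = rp (fun s => f s i) n := by
  induction n with
  | zero => rfl
  | succ n ih => rw [rp_succ, rp_succ, Pi.mul_apply, ih]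

end Sh

section Glob

variable {K N : Type} [Field K] [Ring N] [Algebra K N]

variable (K N) in
/-- product of all tensor powers -/
abbrev TT' : Type := ∀ J : ℕ, TJ K N J

variable (K) in
/-- the diagonal action on all tensor powers -/
noncomputable def rH : N →ₗ[K] TT' K N := LinearMap.pi fun J => rJ K J

theorem rH_apply (g : N) (J : ℕ) : rH K g J = rJ K J g := rfl

namespace Gad

variable (Γ : Gad K N)

/-- admissible weights of level `k` -/
def YY (k : ℕ) : Submodule K (ℕ → TT' K N) where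
  carrier := {α | ∀ t J, (LL J ≤ t → α t J = 0) ∧ ∀ j : Fin J, α t J ∈ Sj K j (Γ.PP k j t)}
  add_mem' := fun ha hb t J => ⟨fun h => by
    simp only [Pi.add_apply, (ha t J).1 h, (hb t J).1 h, add_zero],
    fun j => add_mem ((ha t J).2 j) ((hb t J).2 j)⟩
  zero_mem' := fun t J => ⟨fun _ => rfl, fun j => zero_mem _⟩
  smul_mem' := fun c α ha t J => ⟨fun h => by
    simp only [Pi.smul_apply, (ha t J).1 h, smul_zero],
    fun j => Submodule.smul_mem _ c ((ha t J).2 j)⟩

theorem mem_YY {k : ℕ} {α : ℕ → TT' K N} : α ∈ Γ.YY k ↔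
    ∀ t J, (LL J ≤ t → α t J = 0) ∧ ∀ j : Fin J, α t J ∈ Sj K j (Γ.PP k j t) := Iff.rfl

theorem YY_prod (k : ℕ) (α : ℕ → ℕ → TT' K N) (hα : ∀ i, α i ∈ Γ.YY k) (t : ℕ) :
    rp (fun i => α i (t + i)) (2 * LL (2 * k + 1)) = 0 := by
  funext J
  rw [rp_apply]
  show _ = 0
  have hpos := LL_pos (2 * k + 1)
  by_cases hJ : 2 * k < J
  · let j : Fin J := ⟨2 * k, hJ⟩
    obtain ⟨a, ha1, ha2⟩ : ∃ a, a < LL (2 * k + 1) ∧ LL (2 * k + 1) ∣ t + a := by
      refine ⟨(LL (2 * k + 1) - t % LL (2 * k + 1)) % LL (2 * k + 1), Nat.mod_lt _ hpos, ?_⟩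
      have h1 := Nat.mod_lt t hpos
      rw [Nat.dvd_iff_mod_eq_zero, Nat.add_mod, Nat.mod_mod, ← Nat.add_mod_mod, Nat.mod_mod,
        Nat.add_mod_mod, Nat.add_sub_cancel' h1.le, Nat.mod_self]
    obtain ⟨b, hb⟩ : ∃ b, 2 * LL (2 * k + 1) = a + LL (2 * k + 1) + b :=
      ⟨LL (2 * k + 1) - a, by omega⟩
    rw [hb, rp_add, rp_add]
    have := Γ.window J k j rfl (t + a) ha2 (fun s => α (a + s) (t + (a + s)) J) (fun s => by
      have := ((Γ.mem_YY.1 (hα (a + s))) (t + (a + s)) J).2 j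
      rwa [← add_assoc] at this ⊢)
    rw [show rp (fun i => α (a + i) (t + (a + i)) J) (LL (2 * k + 1)) = 0 from this]
    simp
  · have h1 : LL J ≤ LL (2 * k + 1) := Nat.le_of_dvd hpos (LL_dvd (by omega))
    obtain ⟨b, hb⟩ : ∃ b, 2 * LL (2 * k + 1) = b + 1 ∧ LL J ≤ b :=
      ⟨2 * LL (2 * k + 1) - 1, by omega, by omega⟩
    rw [hb.1, rp_succ, ((Γ.mem_YY.1 (hα b)) (t + b) J).1 (by omega), mul_zero]

/-- the global data -/
noncomputable def data (p : ℕ) (hp : p.Prime) (h0 : (p : K) = 0) :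
    Data K (Module.End K (ℕ → TT' K N)) where
  G := Γ.G.map ((mu K) ∘ₗ (rH K))
  Y k := (Γ.YY k).map (sh K)
  hlie := by
    rintro _ ⟨g, hg, rfl⟩ _ ⟨h, hh, rfl⟩
    refine ⟨_, Γ.hlie g hg h hh, ?_⟩
    simp only [LinearMap.comp_apply]
    rw [mu_mul, mu_mul, ← map_sub]
    congr 1
    funext J
    exact (rJ_lie g h).symm
  hnil := by
    rintro _ ⟨g, hg, rfl⟩
    obtain ⟨n, hn⟩ := Γ.hnil g hg
    have h1 : g ^ p ^ n = 0 := pow_eq_zero_of_le (Nat.lt_pow_self hp.one_lt).le hn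
    have h2 : rH K g ^ p ^ n = 0 := by
      funext J
      exact rJ_pow p hp h0 n g h1
    refine ⟨p ^ n + 1, ?_⟩
    simp only [LinearMap.comp_apply]
    rw [mu_pow, pow_succ, h2, zero_mul, map_zero]
  mono := fun a b h => Submodule.map_mono fun α hα t J =>
    ⟨(hα t J).1, fun j => Sj_mono j (Γ.PP_mono j t h) ((hα t J).2 j)⟩
  had := by
    rintro _ ⟨g, hg, rfl⟩
    obtain ⟨d, hd⟩ := Γ.PP_ad hg
    refine ⟨d, ?_⟩
    rintro k _ ⟨α, hα, rfl⟩
    refine ⟨_, ?_, (ad_sh (rH K g) α).symm⟩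
    intro t J
    constructor
    · intro h
      simp only [Pi.sub_apply, Pi.mul_apply, (hα t J).1 h, mul_zero, zero_mul, sub_zero]
    · intro j
      exact Sj_ad j (Γ.PP_mono j t (Nat.le_add_right k d)) g (hd k j t) ((hα t J).2 j)
  hN := by
    intro k
    refine ⟨2 * LL (2 * k + 1), ?_⟩
    rw [← Submodule.span_eq ((Γ.YY k).map (sh K))]
    refine span_pow_eq_bot _ _ fun l hl h => ?_
    obtain ⟨α, h1, h2⟩ := list_rp (Γ.YY k : Set (ℕ → TT' K N)) 0 (zero_mem _) (sh K) l h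
    rw [h2, hl]
    refine LinearMap.ext fun ξ => ?_
    funext t
    rw [rp_sh, Γ.YY_prod k α h1 t, zero_mul]
    rfl

/-- the weights of the distinguished element -/
noncomputable def aH : ℕ → TT' K N := fun t J => if t < LL J then Γ.AA J t else 0

theorem aH_mem : Γ.aH ∈ Γ.YY 0 := by
  intro t J
  constructor
  · intro h
    simp [aH, not_lt.2 h]
  · intro j
    unfold aH
    split_ifs
    · exact tp_mem_Sj (Γ.aa_mem j t)
    · exact zero_mem _

include Γ in
theorem final (p : ℕ) (hp : p.Prime) (h0 : (p : K) = 0) :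
    ∃ (A : Type) (_ : LieRing A) (_ : LieAlgebra K A),
      (∀ x : A, IsNilpotent (LieAlgebra.ad K A x)) ∧
      ∃ a : A, a ∈ lieRadical K A ∧
        rightMul K A a ∉ levitzki K (Module.End K A) (multAlg K A) := by
  refine (Γ.data p hp h0).main (sh K Γ.aH) ⟨_, Γ.aH_mem, rfl⟩ (fun i => mu K (rH K (Γ.x i)))
    (fun i => ⟨Γ.x i, Γ.hx i, rfl⟩) ?_
  intro J
  obtain ⟨u, hu⟩ := Γ.reach_W J J le_rfl 0 none (dvd_zero _)
  let UH : Option (Fin 2) → TT' K N := fun v J' => Γ.UU J' v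
  refine ⟨(List.range (LL J)).map fun s => sh K fun t => Γ.aH t * UH (u s), ?_, ?_, ?_⟩
  · have := LL_ge J
    simp only [List.length_map, List.length_range]
    omega
  · intro z hz
    obtain ⟨s, -, rfl⟩ := List.mem_map.1 hz
    cases h : u s with
    | none =>
      left
      congr 1
      funext t
      show Γ.aH t * 1 = _
      rw [mul_one]
    | some i =>
      right
      exact ⟨i, (sh_mu _ _).symm⟩
  · intro h
    have h1 := rp_sh (K := K) (fun s t => Γ.aH t * UH (u s)) (LL J) 1 0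
    have h2 : rp (fun i => sh K fun t => Γ.aH t * UH (u i)) (LL J) = 0 := h
    rw [h2] at h1
    have h3 := congrFun h1 J
    rw [Pi.mul_apply, rp_apply] at h3
    have h4 : rp (fun s => (Γ.aH (0 + s) * UH (u s)) J) (LL J) =
        rp (fun s => Γ.AA J (0 + s) * Γ.UU J (u s)) (LL J) :=
      rp_congr fun i hi => by simp [aH, hi, UH]
    rw [h4, ← hu] at h3
    apply Γ.WW_ne_zero J
    simpa [UU] using h3.symm

end Gad

theorem strong_counterexample (K : Type) [Field K] (p : ℕ) (hp : p.Prime) [CharP K p] :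
    ∃ (A : Type) (_ : LieRing A) (_ : LieAlgebra K A),
      (∀ x : A, IsNilpotent (LieAlgebra.ad K A x)) ∧
      ∃ a : A, a ∈ lieRadical K A ∧
        rightMul K A a ∉ levitzki K (Module.End K A) (multAlg K A) := by
  obtain ⟨N, _, _, ⟨Γ⟩⟩ := exists_gad K
  exact Γ.final p hp (CharP.cast_eq_zero K p)

end Glob

end Pool.Agent.H881Z.Engel
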