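import Pool.Agent.Helper824.GS

set_option autoImplicit false

namespace Pool.Agent.H881Z.Engel

open Pool.Agent.Helper824.GS Module

section Expand

variable {K E : Type} [Field K] [Ring E] [Algebra K E]

theorem sum_pow_expand {ι : Type} [Fintype ι] (a : ι → E) (N : ℕ) :
    (∑ i, a i) ^ N = ∑ φ : Fin N → ι, (List.ofFn (fun j => a (φ j))).prod := by
  induction N with
  | zero => simp
  | succ N ih =>
    rw [pow_succ', ih, Finset.sum_mul_sum, ← Finset.sum_product', Finset.univ_product_univ]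
    rw [← (Fin.consEquiv (fun _ : Fin (N + 1) => ι)).sum_comp]
    refine Finset.sum_congr rfl fun p _ => ?_
    simp [List.ofFn_succ, Fin.consEquiv]

theorem prod_smul_expand (N : ℕ) (c : Fin N → K) (m : Fin N → E) :
    (List.ofFn (fun j => c j • m j)).prod = (∏ j, c j) • (List.ofFn m).prod := by
  induction N with
  | zero => simp
  | succ N ih =>
    rw [List.ofFn_succ, List.ofFn_succ, List.prod_cons, List.prod_cons, ih, Fin.prod_univ_succ,
      smul_mul_smul_comm]

theorem exists_pow_span (n N : ℕ) (m : Fin n → E) :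
    ∃ S : (Fin n → Fin (N + 1)) → E, ∀ c : Fin n → K,
      (∑ i, c i • m i) ^ N ∈ Submodule.span K (Set.range S) := by
  classical
  let cnt : (Fin N → Fin n) → (Fin n → Fin (N + 1)) := fun φ i =>
    ⟨(Finset.univ.filter (fun j => φ j = i)).card,
      Nat.lt_succ_of_le ((Finset.card_filter_le _ _).trans (by simp))⟩
  refine ⟨fun κ => ∑ φ ∈ Finset.univ.filter (fun φ => cnt φ = κ),
    (List.ofFn (fun j => m (φ j))).prod, fun c => ?_⟩
  rw [sum_pow_expand, ← Finset.sum_fiberwise Finset.univ cnt]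
  refine Submodule.sum_mem _ fun κ _ => ?_
  have h : ∑ φ ∈ Finset.univ.filter (fun φ => cnt φ = κ),
      (List.ofFn (fun j => c (φ j) • m (φ j))).prod =
      (∏ i, c i ^ (κ i : ℕ)) • ∑ φ ∈ Finset.univ.filter (fun φ => cnt φ = κ),
        (List.ofFn (fun j => m (φ j))).prod := by
    rw [Finset.smul_sum]
    refine Finset.sum_congr rfl fun φ hφ => ?_
    rw [prod_smul_expand]
    congr 1
    rw [← Finset.prod_fiberwise' Finset.univ φ c]
    refine Finset.prod_congr rfl fun i _ => ?_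
    rw [Finset.prod_const, ← (Finset.mem_filter.1 hφ).2]
  rw [h]
  exact Submodule.smul_mem _ _ (Submodule.subset_span ⟨κ, rfl⟩)

end Expand

section Nil

variable (K : Type) [Field K]

/-- words of length at least `n` -/
noncomputable def Vge (n : ℕ) : Submodule K (FA K (Fin 2)) :=
  Submodule.span K (mon '' {w : FreeMonoid (Fin 2) | n ≤ w.length})

/-- words of length at most `n` -/
noncomputable def Vle (n : ℕ) : Submodule K (FA K (Fin 2)) :=
  Submodule.span K (mon '' {w : FreeMonoid (Fin 2) | w.length ≤ n})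

theorem Vge_mul (a b : ℕ) : Vge K a * Vge K b ≤ Vge K (a + b) := by
  unfold Vge
  rw [Submodule.span_mul_span]
  refine Submodule.span_mono ?_
  rintro _ ⟨_, ⟨w, hw, rfl⟩, _, ⟨w', hw', rfl⟩, rfl⟩
  refine ⟨w * w', ?_, (mon_mul K _ w w').symm⟩
  simp only [Set.mem_ofPred_eq] at *
  rw [FreeMonoid.length_mul]
  omega

theorem Vle_mul (a b : ℕ) : Vle K a * Vle K b ≤ Vle K (a + b) := by
  unfold Vle
  rw [Submodule.span_mul_span]
  refine Submodule.span_mono ?_
  rintro _ ⟨_, ⟨w, hw, rfl⟩, _, ⟨w', hw', rfl⟩, rfl⟩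
  refine ⟨w * w', ?_, (mon_mul K _ w w').symm⟩
  simp only [Set.mem_ofPred_eq] at *
  rw [FreeMonoid.length_mul]
  omega

theorem Vge_anti {a b : ℕ} (h : a ≤ b) : Vge K b ≤ Vge K a :=
  Submodule.span_mono (Set.image_mono fun _ hw => le_trans h hw)

theorem Vle_mono {a b : ℕ} (h : a ≤ b) : Vle K a ≤ Vle K b :=
  Submodule.span_mono (Set.image_mono fun _ hw => le_trans hw h)

theorem pow_mem_Vge {f : FA K (Fin 2)} (hf : f ∈ Vge K 1) (N : ℕ) : f ^ N ∈ Vge K N := by
  induction N with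
  | zero => exact Submodule.subset_span ⟨1, by simp, by simp [mon_one]⟩
  | succ N ih => rw [pow_succ]; exact Vge_mul K _ _ (Submodule.mul_mem_mul ih hf)

theorem pr_Vge {f : FA K (Fin 2)} {N e : ℕ} (hf : f ∈ Vge K N) (he : e < N) :
    pr K (Fin 2) e f = 0 := by
  unfold Vge at hf
  induction hf using Submodule.span_induction with
  | mem x h =>
    obtain ⟨w, hw, rfl⟩ := h
    simp only [Set.mem_ofPred_eq] at hw
    rw [pr_mon, if_neg (by omega)]
  | zero => simp
  | add x y _ _ hx hy => rw [map_add, hx, hy, add_zero]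
  | smul a x _ hx => rw [map_smul, hx, smul_zero]

theorem pr_Vle {f : FA K (Fin 2)} {N e : ℕ} (hf : f ∈ Vle K N) (he : N < e) :
    pr K (Fin 2) e f = 0 := by
  unfold Vle at hf
  induction hf using Submodule.span_induction with
  | mem x h =>
    obtain ⟨w, hw, rfl⟩ := h
    simp only [Set.mem_ofPred_eq] at hw
    rw [pr_mon, if_neg (by omega)]
  | zero => simp
  | add x y _ _ hx hy => rw [map_add, hx, hy, add_zero]
  | smul a x _ hx => rw [map_smul, hx, smul_zero]

theorem exists_Vle (f : FA K (Fin 2)) : ∃ d, f ∈ Vle K d := by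
  induction f using FA_induction with
  | h0 => exact ⟨0, zero_mem _⟩
  | hadd f g hf hg =>
    obtain ⟨a, ha⟩ := hf
    obtain ⟨b, hb⟩ := hg
    exact ⟨max a b, add_mem (Vle_mono K (le_max_left a b) ha) (Vle_mono K (le_max_right a b) hb)⟩
  | hsmul c f hf =>
    obtain ⟨a, ha⟩ := hf
    exact ⟨a, Submodule.smul_mem _ c ha⟩
  | hmon w => exact ⟨w.length, Submodule.subset_span ⟨w, by simp, rfl⟩⟩

theorem exists_N (k : ℕ) : ∃ N : ℕ, k + 1 ≤ N ∧
    (((N + 1) ^ k : ℕ) : ℝ) * (3 / 4 : ℝ) ^ N ≤ (1 / 2 : ℝ) ^ (k + 4) := by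
  have h := tendsto_pow_const_mul_const_pow_of_abs_lt_one k (r := 3 / 4)
    (by rw [abs_of_pos (by norm_num)]; norm_num)
  have hpos : (0 : ℝ) < (3 / 4) * (1 / 2 : ℝ) ^ (k + 4) := by positivity
  obtain ⟨M, hM⟩ := Filter.eventually_atTop.1 (h.eventually (gt_mem_nhds hpos))
  refine ⟨M + k + 1, by omega, ?_⟩
  have h1 := hM (M + k + 1 + 1) (by omega)
  rw [pow_succ (3 / 4 : ℝ)] at h1
  push_cast at h1 ⊢
  nlinarith

theorem geom_tail (N n : ℕ) :
    ∑ e ∈ Finset.range n, (if N ≤ e then (3 / 4 : ℝ) ^ e else 0) ≤ 4 * (3 / 4 : ℝ) ^ N := by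
  have h : ∀ n, ∑ e ∈ Finset.range n, (if N ≤ e then (3 / 4 : ℝ) ^ e else 0) +
      (if N ≤ n then 4 * (3 / 4 : ℝ) ^ n else 4 * (3 / 4 : ℝ) ^ N) = 4 * (3 / 4 : ℝ) ^ N := by
    intro n
    induction n with
    | zero =>
      by_cases h : N ≤ 0
      · obtain rfl : N = 0 := by omega
        simp
      · simp [h]
    | succ n ih =>
      rw [Finset.sum_range_succ]
      by_cases h1 : N ≤ n
      · rw [if_pos h1] at ih
        rw [if_pos h1, if_pos (by omega), pow_succ]; linarith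
      · rw [if_neg h1] at ih
        by_cases h2 : N ≤ n + 1
        · obtain rfl : N = n + 1 := by omega
          rw [if_neg h1, if_pos h2]; linarith
        · rw [if_neg h1, if_neg h2]; linarith
  have h2 := h n
  have h3 : 0 ≤ (if N ≤ n then 4 * (3 / 4 : ℝ) ^ n else 4 * (3 / 4 : ℝ) ^ N) := by
    split_ifs <;> positivity
  linarith

theorem exists_rel : ∃ R : ℕ → Submodule K (FA K (Fin 2)), (∀ i, R i ≤ V K (Fin 2) i) ∧
    (∀ f ∈ Vge K 1, ∃ N, f ^ N ∈ Jsub R) ∧
    ∀ n, ∃ w : FreeMonoid (Fin 2), w.length = n ∧ (mon w : FA K (Fin 2)) ∉ Idl R n := by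
  classical
  have : Nonempty {w : FreeMonoid (Fin 2) // 1 ≤ w.length} := ⟨⟨FreeMonoid.of 0, by simp⟩⟩
  obtain ⟨en, hen⟩ := exists_surjective_nat {w : FreeMonoid (Fin 2) // 1 ≤ w.length}
  choose N hN1 hN2 using exists_N
  let m : (n : ℕ) → Fin n → FA K (Fin 2) := fun n i => mon (en i).1
  have hm : ∀ n (c : Fin n → K), ∑ i, c i • m n i ∈ Vge K 1 := fun n c =>
    Submodule.sum_mem _ fun i _ => Submodule.smul_mem _ _
      (Submodule.subset_span ⟨(en i).1, (en i).2, rfl⟩)
  let P : ℕ → Submodule K (FA K (Fin 2)) := fun n =>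
    Submodule.span K (Set.range fun c : Fin n → K => (∑ i, c i • m n i) ^ N n)
  have hP1 : ∀ n, P n ≤ Vge K (N n) := fun n => by
    rw [Submodule.span_le]
    rintro _ ⟨c, rfl⟩
    exact pow_mem_Vge K (hm n c) _
  have hP2 : ∀ n, FiniteDimensional K (P n) ∧ finrank K (P n) ≤ (N n + 1) ^ n := fun n => by
    obtain ⟨S, hS⟩ := exists_pow_span (K := K) n (N n) (m n)
    have hle : P n ≤ Submodule.span K (Set.range S) := by
      rw [Submodule.span_le]
      rintro _ ⟨c, rfl⟩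
      exact hS c
    have : FiniteDimensional K (Submodule.span K (Set.range S)) :=
      FiniteDimensional.span_of_finite K (Set.finite_range _)
    refine ⟨Submodule.finiteDimensional_of_le hle, (Submodule.finrank_mono hle).trans ?_⟩
    have := finrank_range_le_card (R := K) S
    simpa [Set.finrank] using this
  let R : ℕ → Submodule K (FA K (Fin 2)) := fun e =>
    ∑ n ∈ Finset.range (e + 1), (P n).map (pr K (Fin 2) e)
  have hR : ∀ i, R i ≤ V K (Fin 2) i := fun i => sum_le_of_le fun n _ => by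
    rintro _ ⟨f, -, rfl⟩
    exact pr_mem K _ i f
  let r : ℕ → ℕ := fun e => ∑ n ∈ Finset.range (e + 1), if N n ≤ e then (N n + 1) ^ n else 0
  have hr : ∀ i, finrank K (R i) ≤ r i := fun i => by
    have h := finrank_sum_le (Finset.range (i + 1)) (fun n => (P n).map (pr K (Fin 2) i))
      (fun n _ => by have := (hP2 n).1; infer_instance) (R i) rfl
    refine h.2.trans (Finset.sum_le_sum fun n _ => ?_)
    have := (hP2 n).1
    split_ifs with h1
    · exact (Submodule.finrank_map_le _ _).trans (hP2 n).2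
    · have h2 : (P n).map (pr K (Fin 2) i) = ⊥ := by
        rw [eq_bot_iff]
        rintro _ ⟨f, hf, rfl⟩
        rw [pr_Vge K (hP1 n hf) (by omega)]
        exact zero_mem _
      rw [h2, finrank_bot]
  refine ⟨R, hR, ?_, exists_mon_notMem hR r hr (3 / 4) (by norm_num) ?_⟩
  · intro f hf
    have h1 : ∃ n, ∃ c : Fin n → K, f = ∑ i, c i • m n i := by
      have hmono : ∀ a b, a ≤ b → Submodule.span K (Set.range (m a)) ≤
          Submodule.span K (Set.range (m b)) := fun a b hab => Submodule.span_mono (by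
        rintro _ ⟨i, rfl⟩
        exact ⟨⟨i, lt_of_lt_of_le i.2 hab⟩, rfl⟩)
      have h2 : ∃ n, f ∈ Submodule.span K (Set.range (m n)) := by
        unfold Vge at hf
        induction hf using Submodule.span_induction with
        | mem x h =>
          obtain ⟨w, hw, rfl⟩ := h
          obtain ⟨i, hi⟩ := hen ⟨w, hw⟩
          refine ⟨i + 1, Submodule.subset_span ⟨Fin.last i, ?_⟩⟩
          simp [m, hi]
        | zero => exact ⟨0, zero_mem _⟩
        | add x y _ _ hx hy =>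
          obtain ⟨a, ha⟩ := hx
          obtain ⟨b, hb⟩ := hy
          exact ⟨max a b, add_mem (hmono _ _ (le_max_left a b) ha) (hmono _ _ (le_max_right a b) hb)⟩
        | smul c x _ hx =>
          obtain ⟨a, ha⟩ := hx
          exact ⟨a, Submodule.smul_mem _ c ha⟩
      obtain ⟨n, hn⟩ := h2
      obtain ⟨c, hc⟩ := (Submodule.mem_span_range_iff_exists_fun K).1 hn
      exact ⟨n, c, hc.symm⟩
    obtain ⟨n, c, hc⟩ := h1
    refine ⟨N n, ?_⟩
    have h3 : f ^ N n ∈ P n := Submodule.subset_span ⟨c, by rw [hc]⟩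
    obtain ⟨M, hM⟩ := exists_sum_pr K (Fin 2) (f ^ N n)
    rw [hM M le_rfl]
    refine Submodule.sum_mem _ fun e _ => ?_
    by_cases he : e < N n
    · rw [pr_Vge K (hP1 n h3) he]
      exact zero_mem _
    · have h4 := hN1 n
      refine R_le_Jsub (n := e) (by omega) ?_
      exact le_sum_of_mem (f := fun n => (P n).map (pr K (Fin 2) e))
        (Finset.mem_range.2 (show n < e + 1 by omega)) ⟨_, h3, rfl⟩
  · intro n
    have h1 : ∑ i ∈ Finset.range n, (r (i + 1) : ℝ) * (3 / 4 : ℝ) ^ (i + 1) ≤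
        ∑ e ∈ Finset.range (n + 1), (r e : ℝ) * (3 / 4 : ℝ) ^ e := by
      rw [Finset.sum_range_succ']
      have : (0 : ℝ) ≤ (r 0 : ℝ) * (3 / 4 : ℝ) ^ 0 := by positivity
      linarith
    have h2 : ∑ e ∈ Finset.range (n + 1), (r e : ℝ) * (3 / 4 : ℝ) ^ e ≤
        ∑ e ∈ Finset.range (n + 1), ∑ k ∈ Finset.range (n + 1),
          (((N k + 1) ^ k : ℕ) : ℝ) * (if N k ≤ e then (3 / 4 : ℝ) ^ e else 0) := by
      refine Finset.sum_le_sum fun e he => ?_
      rw [Finset.mem_range] at he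
      have h3 : (r e : ℝ) * (3 / 4 : ℝ) ^ e = ∑ k ∈ Finset.range (e + 1),
          (((N k + 1) ^ k : ℕ) : ℝ) * (if N k ≤ e then (3 / 4 : ℝ) ^ e else 0) := by
        simp only [r]
        rw [Nat.cast_sum, Finset.sum_mul]
        refine Finset.sum_congr rfl fun k _ => ?_
        split_ifs <;> simp
      rw [h3]
      refine Finset.sum_le_sum_of_subset_of_nonneg (Finset.range_mono (by omega)) ?_
      intro k _ _
      split_ifs <;> positivity
    have h4 : ∑ e ∈ Finset.range (n + 1), ∑ k ∈ Finset.range (n + 1),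
          (((N k + 1) ^ k : ℕ) : ℝ) * (if N k ≤ e then (3 / 4 : ℝ) ^ e else 0) ≤
        ∑ k ∈ Finset.range (n + 1), (1 / 4 : ℝ) * (1 / 2 : ℝ) ^ k := by
      rw [Finset.sum_comm]
      refine Finset.sum_le_sum fun k _ => ?_
      rw [← Finset.mul_sum]
      have h5 := geom_tail (N k) (n + 1)
      have h6 := hN2 k
      have h7 : (0 : ℝ) ≤ (((N k + 1) ^ k : ℕ) : ℝ) := by positivity
      have h8 := mul_le_mul_of_nonneg_left h5 h7
      have h9 : (1 / 2 : ℝ) ^ (k + 4) = (1 / 16) * (1 / 2 : ℝ) ^ k := by ring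
      nlinarith
    have h5 : ∑ k ∈ Finset.range (n + 1), (1 / 4 : ℝ) * (1 / 2 : ℝ) ^ k ≤ 1 / 2 := by
      rw [← Finset.mul_sum]
      have := sum_geometric_two_le (n + 1)
      linarith
    simp only [Fintype.card_fin]
    push_cast
    linarith

/-- A finitely generated nil algebra with unbounded word filtration. -/
theorem exists_nil : ∃ (R : Type) (_ : Ring R) (_ : Algebra K R) (B : Submodule K R)
    (x : Fin 2 → R) (Fl : ℕ → Submodule K R),
    (∀ g ∈ B, ∀ h ∈ B, g * h ∈ B) ∧ (∀ g ∈ B, IsNilpotent g) ∧ (∀ i, x i ∈ B) ∧ Monotone Fl ∧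
    (1 : R) ∈ Fl 0 ∧ (∀ g ∈ B, ∃ d, ∀ k, ∀ r ∈ Fl k, g * r ∈ Fl (k + d)) ∧
    (∀ i k, ∀ r ∈ Fl k, x i * r ∈ Fl (k + 1)) ∧
    ∀ j, ∃ l : List (Fin 2), l.length = j + 1 ∧ (l.map x).prod ∉ Fl j := by
  obtain ⟨R, hR, hnil, hw⟩ := exists_rel K
  let π : FA K (Fin 2) →ₐ[K] (FA K (Fin 2) ⧸ J R) := Ideal.Quotient.mkₐ K (J R)
  have hπ : ∀ z, π z = 0 ↔ z ∈ Jsub R := fun z => Ideal.Quotient.eq_zero_iff_mem
  have hd : ∀ d, ∀ g ∈ Vle K d, ∀ k, ∀ r ∈ (Vle K k).map π.toLinearMap,
      π g * r ∈ (Vle K (k + d)).map π.toLinearMap := by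
    rintro d g hg k _ ⟨r, hr, rfl⟩
    refine ⟨g * r, ?_, by simp⟩
    rw [add_comm]
    exact Vle_mul K _ _ (Submodule.mul_mem_mul hg hr)
  refine ⟨FA K (Fin 2) ⧸ J R, inferInstance, inferInstance, (Vge K 1).map π.toLinearMap,
    fun i => π (mon (FreeMonoid.of i)), fun k => (Vle K k).map π.toLinearMap, ?_, ?_, ?_, ?_, ?_,
    ?_, ?_, ?_⟩
  · rintro _ ⟨g, hg, rfl⟩ _ ⟨h, hh, rfl⟩
    exact ⟨g * h, Vge_anti K (by omega) (Vge_mul K 1 1 (Submodule.mul_mem_mul hg hh)), by simp⟩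
  · rintro _ ⟨g, hg, rfl⟩
    obtain ⟨N, hN⟩ := hnil g hg
    exact ⟨N, by rw [AlgHom.toLinearMap_apply, ← map_pow]; exact (hπ _).2 hN⟩
  · intro i
    exact ⟨mon (FreeMonoid.of i), Submodule.subset_span ⟨_, by simp, rfl⟩, rfl⟩
  · intro a b h
    exact Submodule.map_mono (Vle_mono K h)
  · exact ⟨1, Submodule.subset_span ⟨1, by simp, by simp [mon_one]⟩, by simp⟩
  · rintro _ ⟨g, -, rfl⟩
    obtain ⟨d, hg⟩ := exists_Vle K g
    exact ⟨d, hd d g hg⟩
  · intro i
    exact hd 1 _ (Submodule.subset_span ⟨FreeMonoid.of i, by simp, rfl⟩)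
  · intro j
    obtain ⟨w, hw1, hw2⟩ := hw (j + 1)
    refine ⟨w.toList, hw1, ?_⟩
    have h1 : ∀ w : FreeMonoid (Fin 2),
        (w.toList.map fun i => π (mon (FreeMonoid.of i))).prod = π (mon w) := by
      intro w
      induction w using FreeMonoid.recOn with
      | one => simp [mon_one]
      | of_mul i w ih =>
        rw [FreeMonoid.toList_of_mul, List.map_cons, List.prod_cons, ih, ← map_mul, mon_mul]
    rw [h1]
    rintro ⟨f, hf, hf2⟩
    apply hw2
    have h2 : mon w - f ∈ Jsub R := by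
      rw [← hπ, map_sub]
      exact sub_eq_zero.2 hf2.symm
    have h3 := pr_mem_Idl hR h2 (j + 1)
    rwa [map_sub, pr_mon, if_pos hw1, pr_Vle K hf (Nat.lt_succ_self j), sub_zero] at h3

end Nil

end Pool.Agent.H881Z.Engel
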