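import Pool.Agent.H881Z.Engel.Gad

set_option autoImplicit false

namespace Pool.Agent.H881Z.Engel

open Function

section Rp

variable {M : Type} [Monoid M]

/-- ordered product of the first `n` values -/
def rp (f : ℕ → M) (n : ℕ) : M := ((List.range n).map f).prod

theorem rp_zero (f : ℕ → M) : rp f 0 = 1 := rfl

theorem rp_succ (f : ℕ → M) (n : ℕ) : rp f (n + 1) = rp f n * f n := by
  simp [rp, List.range_succ]

theorem rp_add (f : ℕ → M) (a b : ℕ) : rp f (a + b) = rp f a * rp (fun i => f (a + i)) b := by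
  induction b with
  | zero => simp [rp_zero]
  | succ b ih => rw [← add_assoc, rp_succ, rp_succ, ih, mul_assoc]

theorem rp_congr {f g : ℕ → M} {n : ℕ} (h : ∀ i < n, f i = g i) : rp f n = rp g n := by
  induction n with
  | zero => rfl
  | succ n ih => rw [rp_succ, rp_succ, ih (fun i hi => h i (by omega)), h n (by omega)]

theorem rp_one (f : ℕ → M) : rp f 1 = f 0 := by simp [rp]

end Rp

section Tens

variable (K N : Type) [Field K] [Ring N] [Algebra K N] (J : ℕ)

/-- tensor power of the register algebra -/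
abbrev TJ : Type := PiTensorProduct K (fun _ : Fin J => N)

variable {K N J}

/-- pure tensors -/
noncomputable abbrev tp (f : Fin J → N) : TJ K N J := PiTensorProduct.tprod K f

theorem tp_mul (f g : Fin J → N) : (tp f : TJ K N J) * tp g = tp (f * g) :=
  PiTensorProduct.tprod_mul_tprod f g

theorem tp_zero (f : Fin J → N) (j : Fin J) (h : f j = 0) : (tp f : TJ K N J) = 0 :=
  MultilinearMap.map_coord_zero _ j h

variable (K) in
/-- embedding of one tensor factor -/
noncomputable def io (j : Fin J) : N →ₗ[K] TJ K N J :=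
  (PiTensorProduct.tprod K (s := fun _ : Fin J => N)).toLinearMap 1 j

theorem io_apply (j : Fin J) (T : N) : io K j T = tp (update 1 j T) := rfl

theorem io_mul_tp (j : Fin J) (T : N) (f : Fin J → N) :
    io K j T * tp f = tp (update f j (T * f j)) := by
  rw [io_apply, tp_mul]
  congr 1
  funext i
  by_cases h : i = j
  · subst h; simp
  · simp [update_of_ne h]

theorem tp_mul_io (j : Fin J) (T : N) (f : Fin J → N) :
    tp f * io K j T = tp (update f j (f j * T)) := by
  rw [io_apply, tp_mul]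
  congr 1
  funext i
  by_cases h : i = j
  · subst h; simp
  · simp [update_of_ne h]

theorem io_mul (j : Fin J) (S T : N) : io K j S * io K j T = io K j (S * T) := by
  rw [io_apply j T, io_mul_tp, io_apply]
  simp

theorem io_one (j : Fin J) : io K j (1 : N) = 1 := by
  rw [io_apply, PiTensorProduct.one_def]
  simp

theorem io_pow (j : Fin J) (T : N) (n : ℕ) : io K j T ^ n = io K j (T ^ n) := by
  induction n with
  | zero => simp [io_one]
  | succ n ih => rw [pow_succ, ih, io_mul, pow_succ]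

theorem io_comm {i j : Fin J} (h : i ≠ j) (S T : N) : Commute (io K i S) (io K j T) := by
  rw [Commute, SemiconjBy, io_apply j T, io_mul_tp, tp_mul_io]
  simp [update_of_ne h]

variable (K J) in
/-- the diagonal action -/
noncomputable def rJ : N →ₗ[K] TJ K N J := ∑ j : Fin J, io K j

theorem rJ_apply (g : N) : rJ K J g = ∑ j : Fin J, io K j g := by
  simp [rJ, LinearMap.sum_apply]

theorem ad_tp (g : N) (f : Fin J → N) :
    rJ K J g * tp f - tp f * rJ K J g = ∑ i, tp (update f i (g * f i - f i * g)) := by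
  rw [rJ_apply, Finset.sum_mul, Finset.mul_sum, ← Finset.sum_sub_distrib]
  refine Finset.sum_congr rfl fun i _ => ?_
  rw [io_mul_tp, tp_mul_io]
  exact ((PiTensorProduct.tprod K (s := fun _ : Fin J => N)).map_update_sub f i _ _).symm

theorem rJ_lie (g h : N) :
    rJ K J g * rJ K J h - rJ K J h * rJ K J g = rJ K J (g * h - h * g) := by
  rw [rJ_apply h, Finset.sum_mul, Finset.mul_sum, ← Finset.sum_sub_distrib, rJ_apply (g * h - h * g)]
  refine Finset.sum_congr rfl fun j _ => ?_
  rw [io_apply, ad_tp, Finset.sum_eq_single j]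
  · simp [io_apply]
  · intro i _ hi
    exact tp_zero _ i (by simp [update_of_ne hi])
  · simp

theorem sum_pow_char_zero {E : Type} [Ring E] {ι : Type} (p : ℕ) (hp : p.Prime)
    (h0 : (p : E) = 0) (n : ℕ) (a : ι → E) (s : Finset ι)
    (hc : ∀ i ∈ s, ∀ j ∈ s, Commute (a i) (a j)) (h : ∀ i ∈ s, a i ^ p ^ n = 0) :
    (∑ i ∈ s, a i) ^ p ^ n = 0 := by
  classical
  induction s using Finset.induction_on with
  | empty => rw [Finset.sum_empty, zero_pow (pow_pos hp.pos n).ne']
  | insert i s hi ih =>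
    rw [Finset.sum_insert hi]
    have h1 : Commute (a i) (∑ j ∈ s, a j) :=
      Commute.sum_right _ _ _ fun j hj => hc i (by simp) j (by simp [hj])
    obtain ⟨r, hr⟩ := h1.exists_add_pow_prime_pow_eq hp n
    rw [hr, h i (by simp), ih (fun i hi j hj => hc i (by simp [hi]) j (by simp [hj]))
      (fun i hi => h i (by simp [hi])), h0]
    simp

theorem rJ_pow (p : ℕ) (hp : p.Prime) (h0 : (p : K) = 0) (n : ℕ) (g : N) (hg : g ^ p ^ n = 0) :
    rJ K J g ^ p ^ n = 0 := by
  rw [rJ_apply]
  refine sum_pow_char_zero p hp ?_ n _ _ ?_ ?_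
  · rw [← map_natCast (algebraMap K (TJ K N J)), h0, map_zero]
  · intro i _ j _
    by_cases h : i = j
    · subst h; exact Commute.refl _
    · exact io_comm h _ _
  · intro i _
    rw [io_pow, hg, map_zero]

variable (K) in
/-- tensors whose `j`-th factor lies in `P` -/
noncomputable def Sj (j : Fin J) (P : Submodule K N) : Submodule K (TJ K N J) :=
  Submodule.span K (tp '' {f : Fin J → N | f j ∈ P})

theorem tp_mem_Sj {j : Fin J} {P : Submodule K N} {f : Fin J → N} (h : f j ∈ P) :
    (tp f : TJ K N J) ∈ Sj K j P := Submodule.subset_span ⟨f, h, rfl⟩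

theorem Sj_mono (j : Fin J) {P Q : Submodule K N} (h : P ≤ Q) : Sj K j P ≤ Sj K j Q :=
  Submodule.span_mono (Set.image_mono fun _ hf => h hf)

theorem Sj_mul (j : Fin J) (P Q : Submodule K N) : Sj K j P * Sj K j Q ≤ Sj K j (P * Q) := by
  unfold Sj
  rw [Submodule.span_mul_span, Submodule.span_le]
  rintro _ ⟨_, ⟨f, hf, rfl⟩, _, ⟨g, hg, rfl⟩, rfl⟩
  simp only [tp_mul]
  exact tp_mem_Sj (Submodule.mul_mem_mul hf hg)

theorem Sj_mul_mem {j : Fin J} {P Q W : Submodule K N} (h : P * Q ≤ W) {y z : TJ K N J}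
    (hy : y ∈ Sj K j P) (hz : z ∈ Sj K j Q) : y * z ∈ Sj K j W :=
  Sj_mono j h (Sj_mul j P Q (Submodule.mul_mem_mul hy hz))

theorem Sj_bot (j : Fin J) : Sj K j (⊥ : Submodule K N) = ⊥ := by
  unfold Sj
  rw [Submodule.span_eq_bot]
  rintro _ ⟨f, hf, rfl⟩
  exact tp_zero f j hf

theorem Sj_ad (j : Fin J) {P P' : Submodule K N} (hle : P ≤ P') (g : N)
    (h : ∀ y ∈ P, g * y - y * g ∈ P') {z : TJ K N J} (hz : z ∈ Sj K j P) :
    rJ K J g * z - z * rJ K J g ∈ Sj K j P' := by
  unfold Sj at hz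
  induction hz using Submodule.span_induction with
  | mem x hx =>
    obtain ⟨f, hf, rfl⟩ := hx
    rw [ad_tp]
    refine Submodule.sum_mem _ fun i _ => tp_mem_Sj ?_
    by_cases hi : j = i
    · subst hi
      simpa using h _ hf
    · rw [update_of_ne hi]
      exact hle hf
  | zero => simp
  | add x y _ _ hx hy =>
    have : rJ K J g * (x + y) - (x + y) * rJ K J g =
      (rJ K J g * x - x * rJ K J g) + (rJ K J g * y - y * rJ K J g) := by noncomm_ring
    rw [this]
    exact add_mem hx hy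
  | smul c x _ hx =>
    rw [mul_smul_comm, smul_mul_assoc, ← smul_sub]
    exact Submodule.smul_mem _ c hx

theorem io_Sj_io (j : Fin J) (c o : N) {P : Submodule K N} (h : ∀ T ∈ P, c * T * o = 0)
    {z : TJ K N J} (hz : z ∈ Sj K j P) : io K j c * z * io K j o = 0 := by
  unfold Sj at hz
  induction hz using Submodule.span_induction with
  | mem x hx =>
    obtain ⟨f, hf, rfl⟩ := hx
    rw [io_mul_tp, tp_mul_io]
    exact tp_zero _ j (by simpa using h _ hf)
  | zero => simp
  | add x y _ _ hx hy => rw [mul_add, add_mul, hx, hy, add_zero]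
  | smul c x _ hx => rw [mul_smul_comm, smul_mul_assoc, hx, smul_zero]

namespace Gad

variable (Γ : Gad K N)

theorem io_mem (j : Fin J) {P : Submodule K N} {T : N} (h : T ∈ P) : io K j T ∈ Sj K j P := by
  rw [io_apply]
  exact tp_mem_Sj (by simpa using h)

theorem rest_mem (j : Fin J) (g : N) : rJ K J g - io K j g ∈ Sj K j (Γ.Dg 0) := by
  rw [rJ_apply, ← Finset.add_sum_erase _ _ (Finset.mem_univ j), add_sub_cancel_left]
  refine Submodule.sum_mem _ fun i hi => ?_
  rw [io_apply]
  refine tp_mem_Sj ?_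
  rw [update_of_ne (Finset.ne_of_mem_erase hi).symm]
  exact Γ.one_Dg

theorem Dg_zero_le_one : Γ.Dg 0 * Γ.Dg 0 ≤ Γ.Dg 0 := Γ.Dg_mul 0 0

theorem key_diff (j : Fin J) (hmono : Γ.Dg 0 ≤ Γ.Dg 1) (l : List (Fin 2)) :
    (l.map fun i => rJ K J (Γ.x i)).prod ∈ Sj K j (Γ.Dg l.length) ∧
    ∀ T ∈ Sj K j (Γ.Dg 1), T * ((l.map fun i => rJ K J (Γ.x i)).prod -
      io K j (l.map Γ.x).prod) ∈ Sj K j (Γ.Dg l.length) := by
  induction l with
  | nil =>
    refine ⟨?_, fun T _ => by simp [io_one]⟩
    simpa [io_one] using io_mem (K := K) j Γ.one_Dg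
  | cons i l ih =>
    obtain ⟨ih1, ih2⟩ := ih
    have hx : io K j (Γ.x i) ∈ Sj K j (Γ.Dg 1) := io_mem j (Γ.x_Dg i)
    have hr := Γ.rest_mem j (Γ.x i)
    have hx' : rJ K J (Γ.x i) ∈ Sj K j (Γ.Dg 1) := by
      have := add_mem (Sj_mono j hmono hr) hx
      rwa [sub_add_cancel] at this
    constructor
    · rw [List.map_cons, List.prod_cons, List.length_cons, add_comm]
      exact Sj_mul_mem (Γ.Dg_mul _ _) hx' ih1
    · intro T hT
      have h1 : ((i :: l).map fun i => rJ K J (Γ.x i)).prod - io K j ((i :: l).map Γ.x).prod =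
          (rJ K J (Γ.x i) - io K j (Γ.x i)) * (l.map fun i => rJ K J (Γ.x i)).prod +
          io K j (Γ.x i) * ((l.map fun i => rJ K J (Γ.x i)).prod - io K j (l.map Γ.x).prod) := by
        simp only [List.map_cons, List.prod_cons, ← io_mul]
        noncomm_ring
      rw [h1, List.length_cons, add_comm l.length]
      refine Sj_mul_mem (Γ.Dg_mul _ _) hT (add_mem ?_ (ih2 _ hx))
      have := Sj_mul_mem (Γ.Dg_mul _ _) hr ih1
      rwa [zero_add] at this

theorem key (j : Fin J) (hmono : Γ.Dg 0 ≤ Γ.Dg 1) (l : List (Fin 2)) (hl : l.length = j + 1) :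
    io K j (Γ.C j) * (l.map fun i => rJ K J (Γ.x i)).prod * io K j Γ.O =
      io K j (Γ.C j * (l.map Γ.x).prod * Γ.O) := by
  cases l with
  | nil => simp at hl
  | cons i l =>
    have hl' : l.length = j := by simpa using hl
    obtain ⟨ih1, ih2⟩ := Γ.key_diff j hmono l
    have hx : io K j (Γ.x i) ∈ Sj K j (Γ.Dg 1) := io_mem j (Γ.x_Dg i)
    have hr := Γ.rest_mem j (Γ.x i)
    have h1 : ((i :: l).map fun i => rJ K J (Γ.x i)).prod - io K j ((i :: l).map Γ.x).prod =
        (rJ K J (Γ.x i) - io K j (Γ.x i)) * (l.map fun i => rJ K J (Γ.x i)).prod +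
        io K j (Γ.x i) * ((l.map fun i => rJ K J (Γ.x i)).prod - io K j (l.map Γ.x).prod) := by
      simp only [List.map_cons, List.prod_cons, ← io_mul]
      noncomm_ring
    have h2 : ((i :: l).map fun i => rJ K J (Γ.x i)).prod - io K j ((i :: l).map Γ.x).prod ∈
        Sj K j (Γ.Dg j) := by
      rw [h1, ← hl']
      refine add_mem ?_ (ih2 _ hx)
      have := Sj_mul_mem (Γ.Dg_mul _ _) hr ih1
      rwa [zero_add] at this
    have h3 := io_Sj_io j (Γ.C j) Γ.O (Γ.C_Dg j) h2
    rw [mul_sub, sub_mul, sub_eq_zero] at h3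
    rw [h3, io_mul, io_mul]

end Gad

end Tens

end Pool.Agent.H881Z.Engel
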