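import Pool.Agent.H881Z.Engel.Tens

set_option autoImplicit false

namespace Pool.Agent.H881Z.Engel

open Function

/-- window lengths -/
def LL : ℕ → ℕ
  | 0 => 1
  | j + 1 => (j + 2) * LL j

theorem LL_pos (j : ℕ) : 0 < LL j := by
  induction j with
  | zero => exact Nat.one_pos
  | succ j ih => exact Nat.mul_pos (by omega) ih

theorem LL_dvd {a b : ℕ} (h : a ≤ b) : LL a ∣ LL b := by
  induction h with
  | refl => exact dvd_rfl
  | step _ ih => exact Dvd.dvd.mul_left ih _

theorem LL_ge (j : ℕ) : j + 1 ≤ LL j := by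
  cases j with
  | zero => exact le_rfl
  | succ j =>
    have := LL_pos j
    show j + 1 + 1 ≤ (j + 2) * LL j
    nlinarith

theorem not_dvd_mid {i j t r : ℕ} (hij : j ≤ i) (ht : LL (j + 1) ∣ t) (h1 : 1 ≤ r)
    (h2 : r ≤ j + 1) : ¬ LL (i + 1) ∣ t + r * LL j := by
  intro h
  have h3 : LL (j + 1) ∣ r * LL j :=
    (Nat.dvd_add_right ht).1 ((LL_dvd (Nat.succ_le_succ hij)).trans h)
  have h4 := LL_pos j
  have h5 := Nat.le_of_dvd (Nat.mul_pos h1 h4) h3
  have h6 : LL (j + 1) = (j + 2) * LL j := rfl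
  nlinarith

section Time

variable {K N : Type} [Field K] [Ring N] [Algebra K N]

namespace Gad

variable (Γ : Gad K N) (J : ℕ)

/-- closing factor -/
def cc (i t : ℕ) : N := if LL (i + 1) ∣ t then Γ.C i else 1

/-- opening factor -/
def oo (i s : ℕ) : N := if LL (i + 1) ∣ s then Γ.O else 1

/-- the step at time `t` -/
noncomputable def AA (t : ℕ) : TJ K N J := tp fun i => Γ.cc i t * Γ.oo i (t + 1)

/-- the value of a complete window -/
noncomputable def WW (j t : ℕ) : TJ K N J :=
  tp fun i => if (i : ℕ) < j then Γ.e else Γ.cc i t * Γ.oo i (t + LL j)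

/-- optional letters -/
noncomputable def UU : Option (Fin 2) → TJ K N J
  | none => 1
  | some i => rJ K J (Γ.x i)

/-- values of words with at most one letter after each step -/
def Reach (t n : ℕ) (z : TJ K N J) : Prop :=
  ∃ u : ℕ → Option (Fin 2), z = rp (fun s => Γ.AA J (t + s) * Γ.UU J (u s)) n

variable {Γ J}

theorem Reach.mul {t n m : ℕ} {z z' : TJ K N J} (h : Γ.Reach J t n z)
    (h' : Γ.Reach J (t + n) m z') : Γ.Reach J t (n + m) (z * z') := by
  obtain ⟨u, rfl⟩ := h
  obtain ⟨u', rfl⟩ := h'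
  refine ⟨fun s => if s < n then u s else u' (s - n), ?_⟩
  rw [rp_add]
  congr 1
  · exact rp_congr fun i hi => by simp [hi]
  · exact rp_congr fun i _ => by simp [add_assoc]

variable (Γ J)

/-- the idempotent -/
noncomputable def EE (j : ℕ) : TJ K N J := tp fun i => if (i : ℕ) < j then Γ.e else 1

theorem EE_EE (j : ℕ) : Γ.EE J j * Γ.EE J j = Γ.EE J j := by
  unfold EE
  rw [tp_mul]
  congr 1
  funext i
  by_cases h : (i : ℕ) < j <;> simp [h, Γ.e_e]

theorem EE_comm (j : ℕ) {g : N} (hg : g ∈ Γ.G) : Commute (Γ.EE J j) (rJ K J g) := by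
  have h := ad_tp (K := K) g (fun i : Fin J => if (i : ℕ) < j then Γ.e else 1)
  rw [Finset.sum_eq_zero] at h
  · exact (sub_eq_zero.1 h).symm
  · intro i _
    refine tp_zero _ i ?_
    by_cases hi : (i : ℕ) < j <;> simp [hi, Γ.e_g g hg, Γ.g_e g hg]

theorem EE_prod (j : ℕ) (l : List (Fin 2)) :
    Γ.EE J j * (l.map fun i => Γ.EE J j * rJ K J (Γ.x i)).prod =
      Γ.EE J j * (l.map fun i => rJ K J (Γ.x i)).prod := by
  induction l with
  | nil => simp
  | cons i l ih =>
    have hc := (Γ.EE_comm J j (Γ.hx i)).eq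
    simp only [List.map_cons, List.prod_cons]
    calc Γ.EE J j * (Γ.EE J j * rJ K J (Γ.x i) * (l.map fun i => Γ.EE J j * rJ K J (Γ.x i)).prod)
        = rJ K J (Γ.x i) * (Γ.EE J j * (l.map fun i => Γ.EE J j * rJ K J (Γ.x i)).prod) := by
          rw [← mul_assoc, ← mul_assoc, Γ.EE_EE, hc, mul_assoc]
      _ = _ := by rw [ih, ← mul_assoc, ← hc, mul_assoc]

theorem WW_mid {j t r : ℕ} (ht : LL (j + 1) ∣ t) (h1 : 1 ≤ r) (h2 : r ≤ j) :
    Γ.WW J j (t + r * LL j) = Γ.EE J j := by
  unfold WW EE
  congr 1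
  funext i
  by_cases h : (i : ℕ) < j
  · simp [h]
  · have a1 := not_dvd_mid (not_lt.1 h) ht h1 (by omega)
    have a2 := not_dvd_mid (r := r + 1) (not_lt.1 h) ht (by omega) (by omega)
    rw [Nat.succ_mul, ← add_assoc] at a2
    simp [h, cc, oo, a1, a2]

theorem reach_W (j : ℕ) (hj : j ≤ J) :
    ∀ t v, LL j ∣ t → Γ.Reach J t (LL j) (Γ.WW J j t * Γ.UU J v) := by
  induction j with
  | zero =>
    intro t v _
    refine ⟨fun _ => v, ?_⟩
    show _ = rp _ 1
    rw [rp_one]
    simp [WW, AA, LL]
  | succ j ih =>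
    intro t v ht
    have ih' := ih (by omega)
    have ht' : LL j ∣ t := (LL_dvd (Nat.le_succ j)).trans ht
    have mid : ∀ (l : List (Fin 2)) (r : ℕ), 1 ≤ r → r + l.length ≤ j + 1 →
        Γ.Reach J (t + r * LL j) (l.length * LL j)
          (l.map fun i => Γ.EE J j * rJ K J (Γ.x i)).prod := by
      intro l
      induction l with
      | nil => intro r _ _; exact ⟨fun _ => none, by simp [rp_zero]⟩
      | cons i l ihl =>
        intro r h1 h2
        rw [List.length_cons] at h2
        have a1 := ih' (t + r * LL j) (some i) (dvd_add ht' (dvd_mul_left _ _))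
        rw [Γ.WW_mid J ht h1 (by omega)] at a1
        have a2 := ihl (r + 1) (by omega) (by omega)
        rw [Nat.succ_mul, ← add_assoc] at a2
        have a3 := a1.mul a2
        rw [List.length_cons, Nat.succ_mul, add_comm (l.length * LL j)]
        exact a3
    obtain ⟨l, hl, hw⟩ := Γ.word j
    cases l with
    | nil => simp at hl
    | cons i0 l =>
      have hl' : l.length = j := by simpa using hl
      have a1 := ih' t (some i0) ht'
      have a2 := mid l 1 le_rfl (by omega)
      rw [one_mul] at a2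
      have a3 := ih' (t + (j + 1) * LL j) v (dvd_add ht' (dvd_mul_left _ _))
      have a4 := a1.mul a2
      have e1 : t + (j + 1) * LL j = t + (LL j + l.length * LL j) := by rw [hl']; ring
      rw [e1] at a3
      have a5 := a4.mul a3
      have e2 : LL j + l.length * LL j + LL j = LL (j + 1) := by
        rw [hl']; show _ = (j + 2) * LL j; ring
      rw [e2, ← e1] at a5
      let j0 : Fin J := ⟨j, by omega⟩
      let Cge : TJ K N J := tp fun i => if (i : ℕ) ≤ j then 1 else Γ.cc i t
      let Oge : TJ K N J := tp fun i => if (i : ℕ) ≤ j then 1 else Γ.oo i (t + LL (j + 1))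
      have f1 : Γ.WW J j t = Cge * io K j0 (Γ.C j) * Γ.EE J j := by
        simp only [Cge, WW, EE]
        rw [tp_mul_io, tp_mul]
        congr 1
        funext i
        rcases lt_trichotomy (i : ℕ) j with h | h | h
        · have : i ≠ j0 := fun e => by rw [e] at h; exact lt_irrefl _ h
          simp [h, h.le, update_of_ne this]
        · have : i = j0 := Fin.ext h
          have b1 := not_dvd_mid (r := 1) (le_refl j) ht le_rfl (by omega)
          rw [one_mul] at b1
          subst this
          simp [j0, cc, oo, ht, b1]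
        · have : i ≠ j0 := fun e => by rw [e] at h; exact lt_irrefl _ h
          have b1 := not_dvd_mid (r := 1) h.le ht le_rfl (by omega)
          rw [one_mul] at b1
          simp [not_lt.2 h.le, not_le.2 h, update_of_ne this, oo, b1]
      have e3 : t + (j + 1) * LL j + LL j = t + LL (j + 1) := by
        show _ = t + (j + 2) * LL j; ring
      have f2 : Γ.WW J j (t + (j + 1) * LL j) = Γ.EE J j * io K j0 Γ.O * Oge := by
        simp only [Oge, WW, EE]
        rw [tp_mul_io, tp_mul, e3]
        congr 1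
        funext i
        rcases lt_trichotomy (i : ℕ) j with h | h | h
        · have : i ≠ j0 := fun e => by rw [e] at h; exact lt_irrefl _ h
          simp [h, h.le, update_of_ne this]
        · have : i = j0 := Fin.ext h
          have b1 := not_dvd_mid (r := j + 1) (le_refl j) ht (by omega) le_rfl
          subst this
          simp [j0, cc, oo, ht, b1]
        · have : i ≠ j0 := fun e => by rw [e] at h; exact lt_irrefl _ h
          have b1 := not_dvd_mid (r := j + 1) h.le ht (by omega) le_rfl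
          simp [not_lt.2 h.le, not_le.2 h, update_of_ne this, cc, b1]
      have f3 : Cge * Γ.EE J j * io K j0 Γ.e * Oge = Γ.WW J (j + 1) t := by
        simp only [Cge, Oge, WW, EE]
        rw [tp_mul, tp_mul_io, tp_mul]
        congr 1
        funext i
        rcases lt_trichotomy (i : ℕ) j with h | h | h
        · have : i ≠ j0 := fun e => by rw [e] at h; exact lt_irrefl _ h
          simp [h, h.le, update_of_ne this, Nat.lt_succ_of_lt h]
        · have : i = j0 := Fin.ext h
          subst this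
          simp [j0]
        · have : i ≠ j0 := fun e => by rw [e] at h; exact lt_irrefl _ h
          simp [not_lt.2 h.le, not_le.2 h, update_of_ne this, not_lt.2 (Nat.succ_le_of_lt h)]
      have f4 : io K j0 (Γ.C j) * Γ.EE J j = Γ.EE J j * io K j0 (Γ.C j) := by
        simp only [EE]
        rw [tp_mul_io, io_mul_tp]
        simp [j0]
      have f5 := Γ.key j0 Γ.Dg_le (i0 :: l) hl
      have f6 : io K j0 (Γ.C j) * (rJ K J (Γ.x i0) * (l.map fun i => rJ K J (Γ.x i)).prod) *
          io K j0 Γ.O = io K j0 Γ.e := by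
        rw [← hw]
        exact f5
      have f7 : Commute (Γ.EE J j) (l.map fun i => rJ K J (Γ.x i)).prod :=
        Commute.list_prod_right _ _ (by
          intro y hy
          obtain ⟨i, -, rfl⟩ := List.mem_map.1 hy
          exact Γ.EE_comm J j (Γ.hx i))
      have f8 := (Γ.EE_comm J j (Γ.hx i0)).eq
      have f9 := Γ.EE_prod J j l
      set E := Γ.EE J j with hE
      set X0 := rJ K J (Γ.x i0) with hX0
      set Pl := (l.map fun i => rJ K J (Γ.x i)).prod with hPl
      set Pm := (l.map fun i => E * rJ K J (Γ.x i)).prod with hPm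
      have g1 : E * X0 * Pm * E = E * (X0 * Pl) := by
        calc E * X0 * Pm * E = X0 * (E * Pm) * E := by rw [f8]; simp only [mul_assoc]
          _ = X0 * (Pl * (E * E)) := by rw [f9, f7.eq]; simp only [mul_assoc]
          _ = X0 * (E * Pl) := by rw [hE, Γ.EE_EE, ← hE, f7.eq]
          _ = E * (X0 * Pl) := by rw [← mul_assoc, ← f8, mul_assoc]
      have g2 : Γ.WW J j t * Γ.UU J (some i0) * Pm *
          (Γ.WW J j (t + (j + 1) * LL j) * Γ.UU J v) = Γ.WW J (j + 1) t * Γ.UU J v := by
        rw [f1, f2, ← f3, ← f6]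
        show Cge * io K j0 (Γ.C j) * E * X0 * Pm * (E * io K j0 Γ.O * Oge * Γ.UU J v) = _
        calc Cge * io K j0 (Γ.C j) * E * X0 * Pm * (E * io K j0 Γ.O * Oge * Γ.UU J v)
            = Cge * io K j0 (Γ.C j) * (E * X0 * Pm * E) * io K j0 Γ.O * Oge * Γ.UU J v := by
              simp only [mul_assoc]
          _ = Cge * (io K j0 (Γ.C j) * E) * (X0 * Pl) * io K j0 Γ.O * Oge * Γ.UU J v := by
              rw [g1]; simp only [mul_assoc]
          _ = _ := by rw [f4]; simp only [mul_assoc]
      rw [g2] at a5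
      exact a5

theorem WW_ne_zero : Γ.WW J J 0 ≠ 0 := by
  intro h
  let lam : TJ K N J →ₗ[K] K := PiTensorProduct.lift
    ((MultilinearMap.mkPiAlgebra K (Fin J) K).compLinearMap fun _ => Γ.lam)
  have h1 := congrArg lam h
  simp [lam, WW, Γ.lam_e] at h1

/-- the constraint on the `j`-th factor at time `t` -/
def PP (k j t : ℕ) : Submodule K N :=
  if LL (j + 1) ∣ t then Γ.Cl j k else if LL (j + 1) ∣ t + 1 then Γ.Op k else 1

theorem aa_mem (j t : ℕ) : Γ.cc j t * Γ.oo j (t + 1) ∈ Γ.PP 0 j t := by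
  unfold cc oo PP
  by_cases h1 : LL (j + 1) ∣ t
  · have h2 : ¬ LL (j + 1) ∣ t + 1 := by
      intro h2
      have h3 := Nat.le_of_dvd Nat.one_pos ((Nat.dvd_add_right h1).1 h2)
      have := LL_ge (j + 1)
      omega
    simp [h1, h2, Γ.C_mem]
  · by_cases h2 : LL (j + 1) ∣ t + 1
    · simp [h1, h2, Γ.O_mem]
    · simp [h1, h2, Submodule.one_eq_span, Submodule.mem_span_singleton_self]

theorem PP_mono (j t : ℕ) {a b : ℕ} (h : a ≤ b) : Γ.PP a j t ≤ Γ.PP b j t := by
  unfold PP
  split_ifs
  · exact Γ.Cl_mono j h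
  · exact Γ.Op_mono h
  · exact le_rfl

theorem PP_ad {g : N} (hg : g ∈ Γ.G) :
    ∃ d, ∀ k j t, ∀ y ∈ Γ.PP k j t, g * y - y * g ∈ Γ.PP (k + d) j t := by
  obtain ⟨d, h1, h2⟩ := Γ.had g hg
  refine ⟨d, fun k j t => ?_⟩
  unfold PP
  split_ifs
  · exact h2 j k
  · exact h1 k
  · intro y hy
    obtain ⟨c, rfl⟩ := Submodule.mem_one.1 hy
    rw [Algebra.commutes, sub_self]
    exact zero_mem _

theorem window (k : ℕ) (j : Fin J) (hj : (j : ℕ) = 2 * k) (t : ℕ) (ht : LL (j + 1) ∣ t)
    (α : ℕ → TJ K N J) (hα : ∀ s, α s ∈ Sj K j (Γ.PP k j (t + s))) :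
    rp α (LL (j + 1)) = 0 := by
  have h2 := LL_ge (j + 1)
  obtain ⟨m, hm⟩ : ∃ m, LL (j + 1) = m + 1 + 1 := ⟨LL (j + 1) - 2, by omega⟩
  have nd : ∀ s, 0 < s → s < LL (j + 1) → ¬ LL (j + 1) ∣ t + s := fun s h1 h3 h4 => by
    have := Nat.le_of_dvd h1 ((Nat.dvd_add_right ht).1 h4)
    omega
  have h1 : ∀ s, s ≤ m → rp α (s + 1) ∈ Sj K j (Γ.Cl j k) := by
    intro s
    induction s with
    | zero =>
      intro _
      have := hα 0
      rw [PP, add_zero, if_pos ht] at this
      rwa [zero_add, rp_one]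
    | succ s ih =>
      intro hs
      have := hα (s + 1)
      rw [PP, if_neg (nd _ (by omega) (by omega)),
        if_neg (by rw [add_assoc]; exact nd _ (by omega) (by omega))] at this
      rw [rp_succ]
      exact Sj_mul_mem (by rw [mul_one]) (ih (by omega)) this
  have h3 := hα (m + 1)
  rw [PP, if_neg (nd _ (by omega) (by omega)),
    if_pos (by rw [add_assoc, ← hm]; exact dvd_add ht dvd_rfl)] at h3
  rw [hm, rp_succ]
  have h4 : Γ.Cl j k * Γ.Op k ≤ ⊥ := by
    rw [Submodule.mul_le]
    intro c hc o ho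
    rw [hj] at hc
    exact Γ.kill k c hc o ho
  have h5 := Sj_mul_mem h4 (h1 m le_rfl) h3
  rwa [Sj_bot, Submodule.mem_bot] at h5

end Gad

end Time

end Pool.Agent.H881Z.Engel
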