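import Pool.Agent.H881Z.Engel.Filt

set_option autoImplicit false

namespace Pool.Agent.H881Z.Engel

section Weak

variable (F : Type) [Field F]

/-- the backward shift -/
noncomputable def bs : Module.End F (ℕ →₀ F) :=
  Finsupp.linearCombination F fun n => if n = 0 then 0 else Finsupp.single (n - 1) 1

theorem bs_single_zero : bs F (Finsupp.single 0 1) = 0 := by simp [bs]

theorem bs_single_succ (n : ℕ) : bs F (Finsupp.single (n + 1) 1) = Finsupp.single n 1 := by
  simp [bs]

theorem bs_pow_single (n : ℕ) : (bs F ^ n) (Finsupp.single n 1) = Finsupp.single 0 1 := by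
  induction n with
  | zero => simp
  | succ n ih => rw [pow_succ, Module.End.mul_apply, bs_single_succ, ih]

theorem bs_pow_mono {v : ℕ →₀ F} {a b : ℕ} (h : a ≤ b) (hv : (bs F ^ a) v = 0) :
    (bs F ^ b) v = 0 := by
  obtain ⟨c, rfl⟩ := Nat.exists_eq_add_of_le h
  rw [add_comm, pow_add, Module.End.mul_apply, hv, map_zero]

theorem bs_locnil (v : ℕ →₀ F) : ∃ n, (bs F ^ n) v = 0 := by
  induction v using Finsupp.induction_linear with
  | zero => exact ⟨0, by simp⟩
  | add f g hf hg =>
    obtain ⟨a, ha⟩ := hf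
    obtain ⟨b, hb⟩ := hg
    exact ⟨max a b, by rw [map_add, bs_pow_mono F (le_max_left a b) ha,
      bs_pow_mono F (le_max_right a b) hb, add_zero]⟩
  | single n c =>
    refine ⟨n + 1, ?_⟩
    have : Finsupp.single n c = c • Finsupp.single n (1 : F) := by simp
    rw [this, map_smul, pow_succ', Module.End.mul_apply, bs_pow_single, bs_single_zero, smul_zero]

/-- the split extension of the space of sequences by the backward shift -/
def WA : Type := F × (ℕ →₀ F)

noncomputable instance : AddCommGroup (WA F) := inferInstanceAs (AddCommGroup (F × (ℕ →₀ F)))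

noncomputable instance : Module F (WA F) := inferInstanceAs (Module F (F × (ℕ →₀ F)))

variable {F}

theorem WA.ext' {x y : WA F} (h1 : x.1 = y.1) (h2 : x.2 = y.2) : x = y := Prod.ext h1 h2

theorem WA.add_fst (x y : WA F) : (x + y).1 = x.1 + y.1 := rfl
theorem WA.add_snd (x y : WA F) : (x + y).2 = x.2 + y.2 := rfl
theorem WA.smul_fst (c : F) (x : WA F) : (c • x).1 = c * x.1 := rfl
theorem WA.smul_snd (c : F) (x : WA F) : (c • x).2 = c • x.2 := rfl
theorem WA.zero_fst : (0 : WA F).1 = 0 := rfl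
theorem WA.zero_snd : (0 : WA F).2 = 0 := rfl

noncomputable instance : Bracket (WA F) (WA F) :=
  ⟨fun x y => (0, x.1 • bs F y.2 - y.1 • bs F x.2)⟩

theorem WA.lie_fst (x y : WA F) : ⁅x, y⁆.1 = 0 := rfl
theorem WA.lie_snd (x y : WA F) : ⁅x, y⁆.2 = x.1 • bs F y.2 - y.1 • bs F x.2 := rfl

noncomputable instance : LieRing (WA F) where
  add_lie x y z := WA.ext' (by simp [WA.lie_fst, WA.add_fst]) (by
    simp only [WA.lie_snd, WA.add_fst, WA.add_snd, map_add]; module)
  lie_add x y z := WA.ext' (by simp [WA.lie_fst, WA.add_fst]) (by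
    simp only [WA.lie_snd, WA.add_fst, WA.add_snd, map_add]; module)
  lie_self x := WA.ext' rfl (by simp [WA.lie_snd, WA.zero_snd])
  leibniz_lie x y z := WA.ext' (by simp [WA.lie_fst, WA.add_fst]) (by
    simp only [WA.lie_snd, WA.lie_fst, WA.add_snd, map_sub, map_smul]; module)

noncomputable instance : LieAlgebra F (WA F) where
  lie_smul c x y := WA.ext' (by simp [WA.lie_fst, WA.smul_fst]) (by
    simp only [WA.lie_snd, WA.smul_fst, WA.smul_snd, map_smul]; module)

theorem rightMul_pow (x y : WA F) (hy : y.1 = 0) (n : ℕ) :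
    ((rightMul F (WA F) x ^ n) y).1 = 0 ∧
      ((rightMul F (WA F) x ^ n) y).2 = (-x.1) ^ n • (bs F ^ n) y.2 := by
  induction n with
  | zero => simp [hy]
  | succ n ih =>
    rw [pow_succ', Module.End.mul_apply]
    refine ⟨rfl, ?_⟩
    show ⁅(rightMul F (WA F) x ^ n) y, x⁆.2 = _
    rw [WA.lie_snd, ih.1, ih.2, pow_succ' (bs F), Module.End.mul_apply, map_smul]
    module

theorem WA.engel (x y : WA F) : ∃ n, 1 ≤ n ∧ (rightMul F (WA F) x ^ n) y = 0 := by
  obtain ⟨n, hn⟩ := bs_locnil F (⁅y, x⁆ : WA F).2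
  refine ⟨n + 1, by omega, ?_⟩
  rw [pow_succ, Module.End.mul_apply]
  obtain ⟨h1, h2⟩ := rightMul_pow x ⁅y, x⁆ rfl n
  exact WA.ext' h1 (by rw [WA.zero_snd]; exact h2.trans (by rw [hn, smul_zero]))

theorem WA.locNil : IsLocNilpLieIdeal F (WA F) ⊤ := by
  intro s hs _
  have h0 : ∃ n, ∀ z ∈ s, (bs F ^ n) z.2 = 0 := by
    clear ‹s ⊆ _›
    induction s, hs using Set.Finite.induction_on with
    | empty => exact ⟨0, by simp⟩
    | @insert a s _ _ ih =>
      obtain ⟨k, hk⟩ := ih
      obtain ⟨k', hk'⟩ := bs_locnil F a.2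
      refine ⟨max k k', ?_⟩
      rintro z (rfl | hz)
      · exact bs_pow_mono F (le_max_right k k') hk'
      · exact bs_pow_mono F (le_max_left k k') (hk z hz)
  obtain ⟨n, hn⟩ := h0
  have hc : ∀ (j : ℕ) (v : ℕ →₀ F), (bs F ^ j) (bs F v) = (bs F ^ (j + 1)) v := fun j v => by
    rw [pow_succ, Module.End.mul_apply]
  let H1 : LieSubalgebra F (WA F) :=
    { carrier := {z | (bs F ^ n) z.2 = 0}
      add_mem' := fun {x y} ha hb => by
        show (bs F ^ n) (x.2 + y.2) = 0
        rw [map_add, ha, hb, add_zero]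
      zero_mem' := by
        show (bs F ^ n) 0 = 0
        simp
      smul_mem' := fun c x hx => by
        show (bs F ^ n) (c • x.2) = 0
        rw [map_smul, hx, smul_zero]
      lie_mem' := fun {x y} hx hy => by
        show (bs F ^ n) (x.1 • bs F y.2 - y.1 • bs F x.2) = 0
        rw [map_sub, map_smul, map_smul, hc, hc, bs_pow_mono F (Nat.le_succ n) hx,
          bs_pow_mono F (Nat.le_succ n) hy]
        simp }
  have hH : LieSubalgebra.lieSpan F (WA F) s ≤ H1 := LieSubalgebra.lieSpan_le.2 hn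
  set H := LieSubalgebra.lieSpan F (WA F) s with hHdef
  let W : ℕ → LieSubmodule F H H := fun j =>
    { carrier := {z | (z : WA F).1 = 0 ∧ (bs F ^ j) (z : WA F).2 = 0}
      add_mem' := fun {x y} ha hb => by
        show (x : WA F).1 + (y : WA F).1 = 0 ∧ (bs F ^ j) ((x : WA F).2 + (y : WA F).2) = 0
        rw [map_add, ha.1, hb.1, ha.2, hb.2]
        simp
      zero_mem' := by
        show (0 : F) = 0 ∧ (bs F ^ j) 0 = 0
        simp
      smul_mem' := fun c x hx => by
        show c * (x : WA F).1 = 0 ∧ (bs F ^ j) (c • (x : WA F).2) = 0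
        rw [map_smul, hx.1, hx.2]
        simp
      lie_mem := fun {x m} hm => by
        show (0 : F) = 0 ∧ (bs F ^ j) ((x : WA F).1 • bs F (m : WA F).2 -
          (m : WA F).1 • bs F (x : WA F).2) = 0
        rw [hm.1, zero_smul, sub_zero, map_smul, hc, bs_pow_mono F (Nat.le_succ j) hm.2]
        simp }
  have hW : ∀ k j, k + j = n → LieModule.lowerCentralSeries F H H (k + 1) ≤ W j := by
    intro k
    induction k with
    | zero =>
      intro j hj
      obtain rfl : j = n := by omega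
      rw [LieModule.lowerCentralSeries_succ, LieSubmodule.lie_le_iff]
      intro x _ m _
      exact ⟨rfl, hH (H.lie_mem x.2 m.2)⟩
    | succ k ih =>
      intro j hj
      rw [LieModule.lowerCentralSeries_succ, LieSubmodule.lie_le_iff]
      intro x _ m hm
      have hm' : (m : WA F).1 = 0 ∧ (bs F ^ (j + 1)) (m : WA F).2 = 0 := ih (j + 1) (by omega) hm
      show (0 : F) = 0 ∧ (bs F ^ j) ((x : WA F).1 • bs F (m : WA F).2 -
          (m : WA F).1 • bs F (x : WA F).2) = 0
      rw [hm'.1, zero_smul, sub_zero, map_smul, hc, hm'.2]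
      simp
  rw [LieRing.IsNilpotent, LieModule.isNilpotent_iff F]
  refine ⟨n + 1, ?_⟩
  rw [eq_bot_iff]
  intro z hz
  have h1 : (z : WA F).1 = 0 ∧ (bs F ^ 0) (z : WA F).2 = 0 := hW n 0 rfl hz
  rw [LieSubmodule.mem_bot]
  exact Subtype.ext (WA.ext' h1.1 (by simpa [WA.zero_snd] using h1.2))

theorem weak_counterexample (F : Type) [Field F] :
    ∃ (A : Type) (_ : LieRing A) (_ : LieAlgebra F A),
      (∀ x y : A, ∃ n : ℕ, 1 ≤ n ∧ (rightMul F A x ^ n) y = 0) ∧
      ∃ a : A, a ∈ lieRadical F A ∧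
        rightMul F A a ∉ levitzki F (Module.End F A) (multAlg F A) := by
  let a : WA F := (1, 0)
  refine ⟨WA F, inferInstance, inferInstance, WA.engel, a, ?_, ?_⟩
  · have : (⊤ : LieIdeal F (WA F)) ≤ lieRadical F (WA F) := le_sSup WA.locNil
    exact this (LieSubmodule.mem_top _)
  · intro hmem
    obtain ⟨J, -, -, hJ3, hJ4⟩ := levitzki_mem _ _ hmem
    have hJ4' : rightMul F (WA F) a ∈ J := hJ4
    obtain ⟨n, hn⟩ := hJ3 _ (Submodule.fg_span_singleton _)
      ((Submodule.span_singleton_le_iff_mem _ _).2 hJ4')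
    have h1 := Submodule.pow_mem_pow _ (Submodule.mem_span_singleton_self (R := F)
      (rightMul F (WA F) a)) n
    rw [hn, Submodule.mem_bot] at h1
    have h2 := (rightMul_pow a (0, Finsupp.single n 1) rfl n).2
    rw [h1, bs_pow_single] at h2
    have h3 : (0 : ℕ →₀ F) = (-1 : F) ^ n • Finsupp.single 0 1 := h2
    have h4 := congrArg (fun f : ℕ →₀ F => f 0) h3
    simp at h4
    exact pow_ne_zero n (neg_ne_zero.2 one_ne_zero) h4.symm

end Weak

end Pool.Agent.H881Z.Engel
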